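import Pool.Agent.NUBD.Hq2

/-!
# The scalars of the disc functional

`BD z X`, symmetric in the rows, depends on the differences of the rapidities only;
`BD z [p, q] = cos (z p - z q)`.
-/

set_option autoImplicit false

namespace Pool.Agent.NUBD

open Complex Finset Filter Topology
open Pool.Agent.NUF.Fr
open Pool.Agent.EXL.Fm (lam Dn)

/-- `exp (- 2 i z) / 2` -/
noncomputable def e2 (z : ℂ) : ℂ := exp (-(2 * I * z)) / 2

theorem cF_e2 (z : ℂ) : cF (-(2 * z)) 0 = e2 z := by
  rw [cF_zero, e2]
  congr 2
  ring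

/-- **The scalars of the disc functional.** -/
noncomputable def BD {ι : Type*} (z : ι → ℂ) (X : List ι) : ℂ :=
  (X.map fun k => exp (I * ((X.length : ℂ) - 1) * z k)).prod * hq 0 (X.map fun k => e2 (z k))

section basic

variable {ι : Type*} {z z' : ι → ℂ} {X Y : List ι} {p q i : ι}

theorem BD_nil : BD z [] = 1 := by
  unfold BD
  simp [hq_nil]

theorem BD_perm (h : X.Perm Y) : BD z X = BD z Y := by
  unfold BD
  rw [h.length_eq, (h.map _).prod_eq, hq_perm (h.map _)]

theorem BD_congr (h : ∀ k ∈ X, z k = z' k) : BD z X = BD z' X := by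
  unfold BD
  congr 1
  · congr 1
    exact List.map_congr_left fun k hk => by rw [h k hk]
  · congr 1
    exact List.map_congr_left fun k hk => by rw [h k hk]

theorem cont_BD {τ : Type*} [TopologicalSpace τ] {f : τ → ι → ℂ}
    (h : ∀ k ∈ X, Continuous fun t => f t k) : Continuous fun t => BD (f t) X := by
  unfold BD
  refine (cont_lprod (f := fun t k => exp (I * ((X.length : ℂ) - 1) * f t k)) fun k hk => ?_).mul
    (cont_hq (f := fun t k => e2 (f t k)) continuous_const fun k hk => ?_)
  · have := h k hk
    fun_prop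
  · have := h k hk
    unfold e2
    fun_prop

theorem diff_BD {f : ℂ → ι → ℂ} (h : ∀ k ∈ X, Differentiable ℂ fun t => f t k) :
    Differentiable ℂ fun t => BD (f t) X := by
  unfold BD
  refine (diff_lprod (f := fun t k => exp (I * ((X.length : ℂ) - 1) * f t k)) fun k hk => ?_).mul
    (diff_hq (f := fun t k => e2 (f t k)) (differentiable_const _) fun k hk => ?_)
  · have := h k hk
    fun_prop
  · have := h k hk
    unfold e2
    fun_prop

theorem map_exp_prod (X : List ι) (c : ℂ) (g : ι → ℂ) :
    (X.map fun k => exp (g k + c)).prod = exp ((X.length : ℂ) * c) * (X.map fun k => exp (g k)).prod := by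
  induction X with
  | nil => simp
  | cons a X ih =>
    rw [List.map_cons, List.map_cons, List.prod_cons, List.prod_cons, ih, Complex.exp_add,
      List.length_cons]
    push_cast
    rw [add_mul, one_mul, Complex.exp_add]
    ring

theorem two_choose (n : ℕ) : (2 * (n.choose 2) : ℂ) = (n : ℂ) * ((n : ℂ) - 1) := by
  induction n with
  | zero => simp
  | succ n ih =>
    rw [ch_succ]
    push_cast
    linear_combination ih

/-- **Only the differences matter.** -/
theorem BD_shift (c : ℂ) : BD (fun k => z k + c) X = BD z X := by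
  unfold BD
  have h1 : (X.map fun k => e2 (z k + c)) = (X.map fun k => e2 (z k)).map fun a => exp (-(2 * I * c)) * a := by
    rw [List.map_map]
    refine List.map_congr_left fun k _ => ?_
    rw [Function.comp_apply, e2, e2, ← mul_div_assoc, ← Complex.exp_add]
    congr 2
    ring
  have h2 := map_exp_prod X (I * ((X.length : ℂ) - 1) * c) fun k => I * ((X.length : ℂ) - 1) * z k
  have h3 : (X.map fun k => exp (I * ((X.length : ℂ) - 1) * (z k + c))).prod =
      (X.map fun k => exp (I * ((X.length : ℂ) - 1) * z k + I * ((X.length : ℂ) - 1) * c)).prod := by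
    congr 1
    refine List.map_congr_left fun k _ => ?_
    rw [mul_add]
  rw [h1, hq_zero_smul, List.length_map, h3, h2, ← Complex.exp_nat_mul]
  have h4 : exp ((X.length : ℂ) * (I * ((X.length : ℂ) - 1) * c)) *
      exp ((X.length.choose 2 : ℕ) * -(2 * I * c)) = 1 := by
    rw [← Complex.exp_add, Complex.exp_eq_one_iff]
    refine ⟨0, ?_⟩
    have := two_choose X.length
    push_cast
    linear_combination (- I * c) * this
  linear_combination ((X.map fun k => exp (I * ((X.length : ℂ) - 1) * z k)).prod *
    hq 0 (X.map fun k => e2 (z k))) * h4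

/-! ### Trigonometry -/

theorem sin_c (x : ℂ) : sin (x + 4 * lam) = cos x := by
  rw [show x + 4 * lam = x + (Real.pi : ℂ) / 2 by unfold lam; ring, Complex.sin_add_pi_div_two]

theorem Dn_cos (u : ℂ) : Dn u = cos (u - lam) * cos (u - 2 * lam) := by
  rw [Dn_eq, fb, fe, ← sin_c (u - lam), ← sin_c (u - 2 * lam), mul_comm]
  congr 2 <;> ring

/-- the difference of two entries -/
theorem e2_sub (z w : ℂ) : e2 z - e2 (w - 3 * lam) =
    exp (-(I * z)) * exp (-(I * w)) * (-(I * exp (3 * I * lam)) * sin (z - w + 3 * lam)) := by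
  rw [Complex.sin]
  have e1 : exp (-(z - w + 3 * lam) * I) = exp (-(I * z)) * exp (I * w) * exp (-(3 * I * lam)) := by
    rw [← Complex.exp_add, ← Complex.exp_add]
    congr 1
    ring
  have e2' : exp ((z - w + 3 * lam) * I) = exp (I * z) * exp (-(I * w)) * exp (3 * I * lam) := by
    rw [← Complex.exp_add, ← Complex.exp_add]
    congr 1
    ring
  have e3 : exp (-(2 * I * z)) = exp (-(I * z)) * exp (-(I * z)) := by
    rw [← Complex.exp_add]
    congr 1
    ring
  have e4 : exp (-(2 * I * (w - 3 * lam))) = exp (-(I * w)) * exp (-(I * w)) * exp (3 * I * lam) *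
      exp (3 * I * lam) := by
    rw [← Complex.exp_add, ← Complex.exp_add, ← Complex.exp_add]
    congr 1
    ring
  have h1 : exp (-(I * z)) * exp (I * z) = 1 := by rw [← Complex.exp_add]; simp
  have h2 : exp (-(I * w)) * exp (I * w) = 1 := by rw [← Complex.exp_add]; simp
  have h3 : exp (-(3 * I * lam)) * exp (3 * I * lam) = 1 := by rw [← Complex.exp_add]; simp
  rw [e1, e2', e2, e2, e3, e4]
  set E := exp (-(I * z))
  set E' := exp (I * z)
  set F := exp (-(I * w))
  set F' := exp (I * w)
  set T := exp (3 * I * lam)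
  set T' := exp (-(3 * I * lam))
  have hI := I_sq
  linear_combination (-(E * E) / 2) * h2 * 1 + (-(E * E * F * F' / 2)) * h3 +
    (F * F * T * T / 2) * h1 + (E * F * T * (E * F' * T' - E' * F * T) / 2) * hI

/-- `exp (i (a + b)) (e2 a + e2 b) = cos (a - b)` -/
theorem e2_add (a b : ℂ) : exp (I * a) * exp (I * b) * (e2 a + e2 b) = cos (a - b) := by
  rw [Complex.cos, e2, e2]
  have e1 : exp ((a - b) * I) = exp (I * a) * exp (-(I * b)) := by
    rw [← Complex.exp_add]
    congr 1
    ring
  have e2' : exp (-(a - b) * I) = exp (-(I * a)) * exp (I * b) := by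
    rw [← Complex.exp_add]
    congr 1
    ring
  have e3 : ∀ z : ℂ, exp (-(2 * I * z)) = exp (-(I * z)) * exp (-(I * z)) := by
    intro z
    rw [← Complex.exp_add]
    congr 1
    ring
  have h1 : ∀ z : ℂ, exp (-(I * z)) * exp (I * z) = 1 := by
    intro z
    rw [← Complex.exp_add]
    simp
  rw [e1, e2', e3, e3]
  linear_combination (exp (-(I * a)) * exp (I * b) / 2) * h1 a + (exp (I * a) * exp (-(I * b)) / 2) * h1 b

end basic

/-! ### Crossing and fusion -/

section rel

variable {ι : Type*} {z z' : ι → ℂ} {Y : List ι} {p q i : ι}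

theorem map_exp_prod' (X : List ι) (c : ℂ) (g h : ι → ℂ) :
    (X.map fun k => exp c * g k * h k).prod = exp ((X.length : ℂ) * c) * (X.map g).prod *
      (X.map h).prod := by
  induction X with
  | nil => simp
  | cons a X ih =>
    simp only [List.map_cons, List.prod_cons, ih, List.length_cons]
    push_cast
    rw [add_mul, one_mul, Complex.exp_add]
    ring

/-- **Crossing**: `z p = z i - 3 l`. -/
theorem BD_lo (h : z p = z i - 3 * lam) :
    BD z (p :: i :: Y) = c3 * (Y.map fun k => Dn (z i - z k)).prod * BD z Y := by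
  have h0 := hq_cross (3 / 2 * lam - z i) 0 (Y.map fun k => e2 (z k))
  rw [zero_mul, add_zero, show 2 * (3 / 2 * lam - z i) + 3 * lam = -(2 * z p) by rw [h]; ring,
    show 2 * (3 / 2 * lam - z i) - 3 * lam = -(2 * z i) by ring,
    show 2 * (3 / 2 * lam - z i) - lam = -(2 * (z i - lam)) by ring,
    show 2 * (3 / 2 * lam - z i) + lam = -(2 * (z i - 2 * lam)) by ring, cF_e2, cF_e2, cF_e2, cF_e2,
    List.map_map] at h0
  unfold BD
  rw [List.map_cons, List.map_cons, List.map_cons, List.map_cons, h0, List.prod_cons, List.prod_cons,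
    List.length_cons, List.length_cons]
  set n : ℂ := (Y.length : ℂ) with hn
  have k1 : ((Y.length + 1 + 1 : ℕ) : ℂ) - 1 = n + 1 := by push_cast; ring
  rw [k1]
  -- the factor of the row `k`
  have hk : ∀ k, exp (2 * z i * I - 3 * lam * I) * exp (2 * z k * I) *
      ((e2 (z k) + e2 (z i - lam)) * (e2 (z k) + e2 (z i - 2 * lam))) = Dn (z i - z k) := by
    intro k
    rw [Dn_cos, show z i - z k - lam = z i - lam - z k by ring,
      show z i - z k - 2 * lam = z i - 2 * lam - z k by ring, ← e2_add, ← e2_add]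
    have e1 : exp (2 * z i * I - 3 * lam * I) * exp (2 * z k * I) =
        (exp (I * (z i - lam)) * exp (I * z k)) * (exp (I * (z i - 2 * lam)) * exp (I * z k)) := by
      rw [← Complex.exp_add, ← Complex.exp_add, ← Complex.exp_add, ← Complex.exp_add]
      congr 1
      ring
    rw [e1]
    ring
  have hP := map_exp_prod' Y (2 * z i * I - 3 * lam * I) (fun k => exp (2 * z k * I))
    (fun k => (e2 (z k) + e2 (z i - lam)) * (e2 (z k) + e2 (z i - 2 * lam)))
  simp only [hk] at hP
  rw [hP]
  have hQ : (Y.map fun k => exp (I * (n + 1) * z k)).prod =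
      (Y.map fun k => exp (2 * z k * I)).prod * (Y.map fun k => exp (I * (n - 1) * z k)).prod := by
    rw [← List.prod_map_mul]
    congr 1
    refine List.map_congr_left fun k _ => ?_
    rw [← Complex.exp_add]
    congr 1
    ring
  rw [hQ]
  have hR : exp (I * (n + 1) * z p) * (exp (I * (n + 1) * z i)) * (e2 (z p) + e2 (z i)) =
      exp (n * (2 * z i * I - 3 * lam * I)) * c3 := by
    have e1 : exp (I * (n + 1) * z p) * (exp (I * (n + 1) * z i)) =
        exp (n * (2 * z i * I - 3 * lam * I)) * (exp (I * z p) * exp (I * z i)) := by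
      rw [← Complex.exp_add, ← Complex.exp_add, ← Complex.exp_add, h]
      congr 1
      ring
    rw [e1, mul_assoc, e2_add, h]
    congr 1
    unfold c3
    rw [← Complex.cos_neg]
    congr 1
    ring
  have hS : (List.map ((fun c => (c + e2 (z i - lam)) * (c + e2 (z i - 2 * lam))) ∘ fun k => e2 (z k)) Y).prod =
      (Y.map fun k => (e2 (z k) + e2 (z i - lam)) * (e2 (z k) + e2 (z i - 2 * lam))).prod := rfl
  rw [hS]
  linear_combination ((Y.map fun k => exp (2 * z k * I)).prod *
    (Y.map fun k => exp (I * (n - 1) * z k)).prod *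
    (Y.map fun k => (e2 (z k) + e2 (z i - lam)) * (e2 (z k) + e2 (z i - 2 * lam))).prod *
    hq 0 (Y.map fun k => e2 (z k))) * hR

/-- **Fusion**: `z p = z q - 2 l`, `z' q = z q - l`. -/
theorem BD_fuse (h : z p = z q - 2 * lam) (h' : z' q = z q - lam) (hY : ∀ k ∈ Y, z' k = z k) :
    BD z (p :: q :: Y) = cos (2 * lam) * (Y.map fun k => cos (z' q - z k)).prod * BD z' (q :: Y) := by
  have h0 := hq_fuse (5 / 2 * lam - z' q) 0 (Y.map fun k => e2 (z k))
  rw [zero_mul, add_zero, show 2 * (5 / 2 * lam - z' q) - 3 * lam = -(2 * z p) by rw [h, h']; ring,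
    show 2 * (5 / 2 * lam - z' q) - 7 * lam = -(2 * z q) by rw [h']; ring,
    show 2 * (5 / 2 * lam - z' q) - 5 * lam = -(2 * z' q) by ring, cF_e2, cF_e2, cF_e2,
    List.map_map] at h0
  have e0 : (Y.map fun k => e2 (z' k)) = Y.map fun k => e2 (z k) :=
    List.map_congr_left fun k hk => by rw [hY k hk]
  unfold BD
  rw [List.map_cons, List.map_cons, List.map_cons, List.map_cons, h0, List.prod_cons, List.prod_cons,
    List.length_cons, List.length_cons, List.map_cons, List.map_cons, List.prod_cons, e0]
  set n : ℂ := (Y.length : ℂ) with hn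
  have k1 : ((Y.length + 1 + 1 : ℕ) : ℂ) - 1 = n + 1 := by push_cast; ring
  have k2 : ((Y.length + 1 : ℕ) : ℂ) - 1 = n := by push_cast; ring
  rw [k1, k2]
  have hk : ∀ k, exp (I * z' q) * exp (I * z k) * (e2 (z' q) + e2 (z k)) = cos (z' q - z k) := fun k =>
    e2_add _ _
  have hP := map_exp_prod' Y (I * z' q) (fun k => exp (I * z k)) (fun k => e2 (z' q) + e2 (z k))
  simp only [hk] at hP
  rw [hP]
  have hQ : (Y.map fun k => exp (I * (n + 1) * z k)).prod =
      (Y.map fun k => exp (I * z k)).prod * (Y.map fun k => exp (I * n * z k)).prod := by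
    rw [← List.prod_map_mul]
    congr 1
    refine List.map_congr_left fun k _ => ?_
    rw [← Complex.exp_add]
    congr 1
    ring
  have hQ' : (Y.map fun k => exp (I * n * z' k)).prod = (Y.map fun k => exp (I * n * z k)).prod := by
    congr 1
    exact List.map_congr_left fun k hk => by rw [hY k hk]
  rw [hQ, hQ']
  have hR : exp (I * (n + 1) * z p) * (exp (I * (n + 1) * z q)) * (2 * s2 * e2 (z' q)) =
      cos (2 * lam) * (exp (n * (I * z' q)) * exp (I * n * z' q)) := by
    have e1 : exp (I * (n + 1) * z p) * (exp (I * (n + 1) * z q)) =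
        exp (n * (I * z' q)) * exp (I * n * z' q) * exp (2 * I * z' q) := by
      rw [← Complex.exp_add, ← Complex.exp_add, ← Complex.exp_add, h, h']
      congr 1
      ring
    have e3 : exp (2 * I * z' q) * (2 * e2 (z' q)) = 1 := by
      rw [e2, mul_div_cancel₀ _ two_ne_zero, ← Complex.exp_add]
      simp
    rw [e1, cos2_eq]
    linear_combination (s2 * exp (n * (I * z' q)) * exp (I * n * z' q)) * e3
  have hS : (List.map ((fun c => e2 (z' q) + c) ∘ fun k => e2 (z k)) Y).prod =
      (Y.map fun k => e2 (z' q) + e2 (z k)).prod := rfl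
  rw [hS]
  linear_combination ((Y.map fun k => exp (I * z k)).prod * (Y.map fun k => exp (I * n * z k)).prod *
    (Y.map fun k => e2 (z' q) + e2 (z k)).prod * hq 0 (e2 (z' q) :: Y.map fun k => e2 (z k))) * hR

end rel

end Pool.Agent.NUBD
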