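import Pool.Agent.NUBD.BD
import Mathlib.LinearAlgebra.Lagrange

/-!
# The scalars of the disc functional: one rapidity, the recursion, `z → - z`
-/

set_option autoImplicit false

namespace Pool.Agent.NUBD

open Complex Finset Filter Topology
open Pool.Agent.NUF.Fr
open Pool.Agent.EXL.Fm (lam Dn)

/-! ### Interpolation -/

/-- a polynomial of degree `≤ |S|` is determined by the values at `S` and the top coefficient -/
theorem pol_ext {ι : Type*} [DecidableEq ι] (S : Finset ι) (r : ι → ℂ) (hr : Set.InjOn r S)
    {P R : Polynomial ℂ} (hP : P.natDegree ≤ S.card) (hR : R.natDegree ≤ S.card)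
    (hc : P.coeff S.card = R.coeff S.card) (h : ∀ i ∈ S, P.eval (r i) = R.eval (r i)) : P = R := by
  rw [← sub_eq_zero]
  have h1 : (P - R).natDegree ≤ S.card := (Polynomial.natDegree_sub_le _ _).trans (max_le hP hR)
  have h2 : (P - R).coeff S.card = 0 := by rw [Polynomial.coeff_sub, hc, sub_self]
  by_contra hne
  have h3 : (P - R).natDegree < S.card := by
    refine lt_of_le_of_ne h1 fun e => hne ?_
    rw [← e] at h2
    exact Polynomial.leadingCoeff_eq_zero.1 h2
  refine hne (Polynomial.eq_zero_of_natDegree_lt_card_of_eval_eq_zero' (P - R) (S.image r) ?_ ?_)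
  · intro t ht
    obtain ⟨i, hi, rfl⟩ := Finset.mem_image.1 ht
    rw [Polynomial.eval_sub, h i hi, sub_self]
  · rwa [Finset.card_image_of_injOn hr]

theorem lagr {ι : Type*} [DecidableEq ι] (S : Finset ι) (r : ι → ℂ) (hr : Set.InjOn r S)
    {P : Polynomial ℂ} (hP : P.natDegree ≤ S.card) (t : ℂ) :
    P.eval t = P.coeff S.card * ∏ k ∈ S, (t - r k) +
      ∑ i ∈ S, P.eval (r i) * ∏ k ∈ S.erase i, ((t - r k) / (r i - r k)) := by
  set R : Polynomial ℂ := Polynomial.C (P.coeff S.card) * ∏ k ∈ S, (Polynomial.X - Polynomial.C (r k)) +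
    ∑ i ∈ S, Polynomial.C (P.eval (r i) * ∏ k ∈ S.erase i, (r i - r k)⁻¹) *
      ∏ k ∈ S.erase i, (Polynomial.X - Polynomial.C (r k)) with hR
  have hmon : ∀ Y : Finset ι, (∏ k ∈ Y, (Polynomial.X - Polynomial.C (r k))).natDegree = Y.card := by
    intro Y
    rw [Polynomial.natDegree_prod_of_monic _ _ fun k _ => Polynomial.monic_X_sub_C _]
    simp
  have htop : (∏ k ∈ S, (Polynomial.X - Polynomial.C (r k))).coeff S.card = 1 := by
    have h := Polynomial.monic_prod_of_monic S (fun k => Polynomial.X - Polynomial.C (r k))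
      fun k _ => Polynomial.monic_X_sub_C _
    have h1 : (∏ k ∈ S, (Polynomial.X - Polynomial.C (r k))).coeff
      (∏ k ∈ S, (Polynomial.X - Polynomial.C (r k))).natDegree = 1 := h
    rwa [hmon] at h1
  have hev : ∀ t, R.eval t = P.coeff S.card * ∏ k ∈ S, (t - r k) +
      ∑ i ∈ S, P.eval (r i) * ∏ k ∈ S.erase i, ((t - r k) / (r i - r k)) := by
    intro t
    rw [hR, Polynomial.eval_add, Polynomial.eval_mul, Polynomial.eval_C, Polynomial.eval_prod,
      Polynomial.eval_finsetSum]
    congr 1
    · simp
    · refine Finset.sum_congr rfl fun i _ => ?_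
      rw [Polynomial.eval_mul, Polynomial.eval_C, Polynomial.eval_prod, mul_assoc,
        ← Finset.prod_mul_distrib]
      congr 1
      refine Finset.prod_congr rfl fun k _ => ?_
      rw [Polynomial.eval_sub, Polynomial.eval_X, Polynomial.eval_C]
      ring
  have hne : ∀ i ∈ S, ∀ k ∈ S.erase i, r i - r k ≠ 0 := by
    intro i hi k hk e
    obtain ⟨h1, h2⟩ := Finset.mem_erase.1 hk
    exact h1 (hr hi h2 (sub_eq_zero.1 e)).symm
  have key : P = R := by
    refine pol_ext S r hr hP ?_ ?_ fun i hi => ?_
    · rw [hR]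
      refine (Polynomial.natDegree_add_le _ _).trans (max_le ?_ ?_)
      · refine (Polynomial.natDegree_C_mul_le _ _).trans (hmon S).le
      · refine Polynomial.natDegree_sum_le_of_forall_le _ _ fun i hi => ?_
        refine (Polynomial.natDegree_C_mul_le _ _).trans ?_
        rw [hmon]
        exact Finset.card_le_card (Finset.erase_subset _ _)
    · rw [hR, Polynomial.coeff_add, Polynomial.coeff_C_mul, htop, mul_one, Polynomial.finsetSum_coeff,
        Finset.sum_eq_zero, add_zero]
      intro i hi
      rw [Polynomial.coeff_C_mul, Polynomial.coeff_eq_zero_of_natDegree_lt, mul_zero]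
      rw [hmon]
      exact Finset.card_erase_lt_of_mem hi
    · rw [hev, Finset.prod_eq_zero hi (sub_self _), mul_zero, zero_add, Finset.sum_eq_single i]
      · rw [Finset.prod_eq_one, mul_one]
        intro k hk
        exact div_self (hne i hi k hk)
      · intro j hj hji
        rw [Finset.prod_eq_zero (i := i) (Finset.mem_erase.2 ⟨hji.symm, hi⟩), mul_zero]
        rw [sub_self, zero_div]
      · intro h
        exact absurd hi h
  rw [← hev, ← key]

/-! ### One rapidity -/

section one

variable {ι : Type*} {z z' : ι → ℂ} {X Y : List ι} {p q i : ι}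

/-- the polynomial in `e2 (z p)` -/
noncomputable def BP (z : ι → ℂ) (X : List ι) : Polynomial ℂ :=
  Polynomial.C (X.map fun k => exp (I * (X.length : ℂ) * z k)).prod * hqP 0 (X.map fun k => e2 (z k))

/-- **The dependence on one rapidity.** -/
theorem BD_cons_pol : BD z (p :: X) = exp (I * (X.length : ℂ) * z p) * (BP z X).eval (e2 (z p)) := by
  unfold BD BP
  rw [List.map_cons, List.map_cons, List.prod_cons, hq_cons, Polynomial.eval_mul, Polynomial.eval_C,
    List.length_cons, show ((X.length + 1 : ℕ) : ℂ) - 1 = (X.length : ℂ) by push_cast; ring]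
  ring

theorem BP_deg : (BP z X).natDegree ≤ X.length := by
  unfold BP
  refine (Polynomial.natDegree_C_mul_le _ _).trans ?_
  have h := hqP_deg 0 (X.map fun k => e2 (z k))
  rwa [List.length_map] at h

theorem prod_exp_mul (X : List ι) (g h : ι → ℂ) :
    (X.map fun k => exp (g k + h k)).prod = (X.map fun k => exp (g k)).prod * (X.map fun k => exp (h k)).prod := by
  rw [← List.prod_map_mul]
  congr 1
  exact List.map_congr_left fun k _ => Complex.exp_add _ _

/-- **The top coefficient.** -/
theorem BP_top : (BP z X).coeff X.length = (X.map fun k => exp (I * z k)).prod * BD z X := by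
  unfold BP BD
  have h := hqP_top 0 (X.map fun k => e2 (z k))
  rw [List.length_map] at h
  rw [Polynomial.coeff_C_mul, h, ← mul_assoc, ← prod_exp_mul]
  congr 2
  refine List.map_congr_left fun k _ => ?_
  congr 1
  ring

/-- **The bottom coefficient.** -/
theorem BP_bot : (BP z X).coeff 0 = (X.map fun k => exp (-(I * z k)) / 2).prod * BD z X := by
  have h1 := hq_triv 0 (X.map fun k => e2 (z k))
  rw [zero_mul, hq_cons, ← Polynomial.coeff_zero_eq_eval_zero, List.map_map] at h1
  have h2 : (List.map ((fun c => c + 0 * c1) ∘ fun k => e2 (z k)) X).prod = (X.map fun k => e2 (z k)).prod := by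
    congr 1
    refine List.map_congr_left fun k _ => ?_
    rw [Function.comp_apply, zero_mul, add_zero]
  rw [h2] at h1
  unfold BP BD
  rw [Polynomial.coeff_C_mul, h1, ← mul_assoc, ← mul_assoc, ← List.prod_map_mul, ← List.prod_map_mul]
  congr 2
  refine List.map_congr_left fun k _ => ?_
  unfold e2
  rw [← mul_div_assoc, div_mul_eq_mul_div, ← Complex.exp_add, ← Complex.exp_add]
  congr 2
  ring

/-- **The dependence on one rapidity**, both leading coefficients. -/
theorem BD_pol (hp : p ∉ X) : ∃ P : Polynomial ℂ, P.natDegree ≤ X.length ∧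
    P.coeff X.length = (X.map fun k => exp (-(I * z k)) / 2).prod * BD z X ∧
    P.coeff 0 = (X.map fun k => exp (I * z k) / 2).prod * BD z X ∧
    ∀ z' : ι → ℂ, (∀ k ∈ X, z' k = z k) →
      exp (I * (X.length : ℂ) * z' p) * BD z' (p :: X) = P.eval (exp (2 * I * z' p)) := by
  have _ := hp
  set Q : Polynomial ℂ := (BP z X).comp (Polynomial.C (1 / 2) * Polynomial.X) with hQ
  have hQd : Q.natDegree ≤ X.length := by
    rw [hQ, Polynomial.natDegree_comp]
    have h1 : (Polynomial.C (1 / 2 : ℂ) * Polynomial.X).natDegree ≤ 1 :=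
      (Polynomial.natDegree_C_mul_le _ _).trans Polynomial.natDegree_X_le
    calc (BP z X).natDegree * _ ≤ (BP z X).natDegree * 1 := Nat.mul_le_mul_left _ h1
      _ ≤ X.length := by rw [mul_one]; exact BP_deg
  have hQc : ∀ j, Q.coeff j = (1 / 2) ^ j * (BP z X).coeff j := by
    intro j
    rw [hQ, Polynomial.comp_C_mul_X_coeff]
    ring
  refine ⟨Q.reflect X.length, ?_, ?_, ?_, ?_⟩
  · refine Polynomial.natDegree_le_iff_coeff_eq_zero.2 fun N hN => ?_
    rw [Polynomial.coeff_reflect, Polynomial.revAt_eq_self_of_lt hN]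
    exact Polynomial.coeff_eq_zero_of_natDegree_lt (lt_of_le_of_lt hQd hN)
  · rw [Polynomial.coeff_reflect, Polynomial.revAt_le le_rfl, Nat.sub_self, hQc, pow_zero, one_mul, BP_bot]
  · rw [Polynomial.coeff_reflect, Polynomial.revAt_le (Nat.zero_le _), Nat.sub_zero, hQc, BP_top, ← mul_assoc]
    congr 1
    have h : ∀ L : List ι, (1 / 2 : ℂ) ^ L.length * (L.map fun k => exp (I * z k)).prod =
        (L.map fun k => exp (I * z k) / 2).prod := by
      intro L
      induction L with
      | nil => simp
      | cons a L ih =>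
        rw [List.map_cons, List.map_cons, List.prod_cons, List.prod_cons, ← ih, List.length_cons, pow_succ]
        ring
    exact h X
  · intro z' hz'
    have e1 : BP z' X = BP z X := by
      unfold BP
      congr 2
      · congr 1
        exact List.map_congr_left fun k hk => by rw [hz' k hk]
      · exact List.map_congr_left fun k hk => by rw [hz' k hk]
    have hx : exp (2 * I * z' p) * exp (-(2 * I * z' p)) = 1 := by
      rw [← Complex.exp_add]
      simp
    have hinv : (exp (2 * I * z' p))⁻¹ = exp (-(2 * I * z' p)) := by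
      rw [← Complex.exp_neg]
    have hev : Q.eval (exp (-(2 * I * z' p))) = (BP z X).eval (e2 (z' p)) := by
      rw [hQ, Polynomial.eval_comp, Polynomial.eval_mul, Polynomial.eval_C, Polynomial.eval_X]
      congr 1
      unfold e2
      ring
    rw [BD_cons_pol, e1, ← hev, ← mul_assoc, ← Complex.exp_add]
    have h3 : (Q.reflect X.length).eval (exp (2 * I * z' p)) =
        exp (2 * I * z' p) ^ X.length * Q.eval (exp (-(2 * I * z' p))) := by
      have hu : IsUnit (exp (2 * I * z' p)) := (Complex.exp_ne_zero _).isUnit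
      let _ : Invertible (exp (-(2 * I * z' p))) :=
        ⟨exp (2 * I * z' p), hx, by rw [mul_comm]; exact hx⟩
      have h4 := Polynomial.eval₂_reflect_mul_pow (RingHom.id ℂ) (exp (-(2 * I * z' p))) X.length Q hQd
      have h5 : ⅟(exp (-(2 * I * z' p))) = exp (2 * I * z' p) := rfl
      rw [h5, Polynomial.eval₂_id, Polynomial.eval₂_id] at h4
      rw [← h4]
      have h6 : exp (2 * I * z' p) ^ X.length * exp (-(2 * I * z' p)) ^ X.length = 1 := by
        rw [← mul_pow, hx, one_pow]
      linear_combination (-(Q.reflect X.length).eval (exp (2 * I * z' p))) * h6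
    rw [h3, ← Complex.exp_nat_mul]
    congr 2
    ring

/-! ### The recursion -/

theorem e2_inj {a b : ℂ} (h : e2 a = e2 b) : sin (a - b) = 0 := by
  have h0 := e2_sub a (b + 3 * lam)
  rw [show b + 3 * lam - 3 * lam = b by ring, h, sub_self,
    show a - (b + 3 * lam) + 3 * lam = a - b by ring] at h0
  have h1 : exp (-(I * a)) * exp (-(I * (b + 3 * lam))) * (-(I * exp (3 * I * lam))) ≠ 0 := by
    refine mul_ne_zero (mul_ne_zero (Complex.exp_ne_zero _) (Complex.exp_ne_zero _)) ?_
    exact neg_ne_zero.2 (mul_ne_zero I_ne_zero (Complex.exp_ne_zero _))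
  rw [← mul_assoc] at h0
  exact (mul_eq_zero.1 h0.symm).resolve_left h1

variable [DecidableEq ι]

/-- the value at a node -/
theorem BP_node (hn : X.Nodup) (hi : i ∈ X) :
    exp (I * (X.length : ℂ) * (z i - 3 * lam)) * (BP z X).eval (e2 (z i - 3 * lam)) =
      c3 * (∏ k ∈ X.toFinset.erase i, Dn (z i - z k)) * BD z (X.erase i) := by
  -- a new label for the line
  have hn' : (X.map some).Nodup := hn.map (Option.some_injective ι)
  set w : Option ι → ℂ := fun o => match o with
    | none => z i - 3 * lam
    | some k => z k with hw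
  have h1 : BP w (X.map some) = BP z X := by
    unfold BP
    rw [List.map_map, List.map_map, List.length_map]
    rfl
  have h2 := BD_cons_pol (z := w) (X := X.map some) (p := none)
  rw [h1, List.length_map] at h2
  have h3 : BD w (none :: X.map some) = BD w (none :: some i :: (X.erase i).map some) := by
    apply BD_perm
    refine List.Perm.cons _ ?_
    rw [← List.map_cons]
    exact (List.perm_cons_erase hi).map _
  have h4 := BD_lo (z := w) (p := none) (i := some i) (Y := (X.erase i).map some) rfl
  have h5 : BD w ((X.erase i).map some) = BD z (X.erase i) := by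
    unfold BD
    rw [List.map_map, List.map_map, List.length_map]
    rfl
  rw [h3, h4, h5] at h2
  have h6 : (((X.erase i).map some).map fun k => Dn (w (some i) - w k)).prod =
      ∏ k ∈ X.toFinset.erase i, Dn (z i - z k) := by
    rw [List.map_map]
    have h7 : (X.erase i).toFinset = X.toFinset.erase i := by
      ext a
      rw [Finset.mem_erase, List.mem_toFinset, List.mem_toFinset, hn.mem_erase_iff]
    rw [← h7, List.prod_toFinset _ (hn.erase i)]
    rfl
  rw [h6] at h2
  exact h2.symm

/-- **The recursion.** -/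
theorem BD_cons (hn : X.Nodup) (hs : ∀ i ∈ X, ∀ j ∈ X, i ≠ j → sin (z i - z j) ≠ 0) :
    BD z (p :: X) = (∏ k ∈ X.toFinset, (-(I * exp (3 * I * lam)) * sin (z p - z k + 3 * lam))) * BD z X +
      ∑ i ∈ X.toFinset, (c3 * exp (I * (z p - z i + 3 * lam)) *
        ∏ k ∈ X.toFinset.erase i, (Dn (z i - z k) * sin (z p - z k + 3 * lam) / sin (z i - z k))) *
          BD z (X.erase i) := by
  have hcard : X.toFinset.card = X.length := List.toFinset_card_of_nodup hn
  set T : ℂ := -(I * exp (3 * I * lam)) with hT
  have hT0 : T ≠ 0 := neg_ne_zero.2 (mul_ne_zero I_ne_zero (Complex.exp_ne_zero _))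
  have hr : Set.InjOn (fun i => e2 (z i - 3 * lam)) (X.toFinset : Set ι) := by
    intro i hi j hj e
    by_contra hij
    refine hs i (List.mem_toFinset.1 hi) j (List.mem_toFinset.1 hj) hij ?_
    have := e2_inj e
    rwa [sub_sub_sub_cancel_right] at this
  have hL := lagr X.toFinset (fun i => e2 (z i - 3 * lam)) hr (P := BP z X) (by rw [hcard]; exact BP_deg)
    (e2 (z p))
  rw [BD_cons_pol, hL, hcard, BP_top, mul_add, Finset.mul_sum]
  have hlp : ∀ g : ι → ℂ, (X.map g).prod = ∏ k ∈ X.toFinset, g k := fun g =>
    (List.prod_toFinset g hn).symm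
  congr 1
  · -- the first term
    have h1 : ∏ k ∈ X.toFinset, (T * sin (z p - z k + 3 * lam)) =
        exp (I * (X.length : ℂ) * z p) * (∏ k ∈ X.toFinset, exp (I * z k)) *
          ∏ k ∈ X.toFinset, (e2 (z p) - e2 (z k - 3 * lam)) := by
      have h2 : exp (I * (X.length : ℂ) * z p) = ∏ _k ∈ X.toFinset, exp (I * z p) := by
        rw [Finset.prod_const, hcard, ← Complex.exp_nat_mul]
        congr 1
        ring
      rw [h2, ← Finset.prod_mul_distrib, ← Finset.prod_mul_distrib]
      refine Finset.prod_congr rfl fun k _ => ?_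
      rw [e2_sub]
      have h3 : exp (I * z p) * exp (-(I * z p)) = 1 := by rw [← Complex.exp_add]; simp
      have h4 : exp (I * z k) * exp (-(I * z k)) = 1 := by rw [← Complex.exp_add]; simp
      rw [← hT]
      linear_combination (-(T * sin (z p - z k + 3 * lam)) * (exp (I * z k) * exp (-(I * z k)))) * h3 -
        (T * sin (z p - z k + 3 * lam)) * h4
    rw [h1, hlp]
    ring
  · refine Finset.sum_congr rfl fun i hi => ?_
    have hi' := List.mem_toFinset.1 hi
    have hpos : 0 < X.length := List.length_pos_of_mem hi'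
    obtain ⟨m, hm⟩ : ∃ m, X.length = m + 1 := ⟨X.length - 1, by omega⟩
    have hcm : (X.toFinset.erase i).card = m := by
      rw [Finset.card_erase_of_mem hi, hcard, hm]
      rfl
    have hnode := BP_node (z := z) hn hi'
    -- the ratios
    have h1 : ∏ k ∈ X.toFinset.erase i, ((e2 (z p) - e2 (z k - 3 * lam)) /
        (e2 (z i - 3 * lam) - e2 (z k - 3 * lam))) =
        exp (-(I * (z p - z i + 3 * lam))) ^ m *
          ∏ k ∈ X.toFinset.erase i, (sin (z p - z k + 3 * lam) / sin (z i - z k)) := by
      rw [← hcm, ← Finset.prod_const, ← Finset.prod_mul_distrib]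
      refine Finset.prod_congr rfl fun k hk => ?_
      obtain ⟨hk1, hk2⟩ := Finset.mem_erase.1 hk
      have hsk := hs i hi' k (List.mem_toFinset.1 hk2) hk1.symm
      rw [e2_sub, e2_sub, show z i - 3 * lam - z k + 3 * lam = z i - z k by ring, ← hT]
      have e1 := Complex.exp_ne_zero (-(I * z p))
      have e3 := Complex.exp_ne_zero (-(I * z k))
      have e4 := Complex.exp_ne_zero (-(I * (z i - 3 * lam)))
      have e5 : exp (-(I * (z p - z i + 3 * lam))) * exp (-(I * (z i - 3 * lam))) = exp (-(I * z p)) := by
        rw [← Complex.exp_add]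
        congr 1
        ring
      rw [div_eq_iff (mul_ne_zero (mul_ne_zero e4 e3) (mul_ne_zero hT0 hsk)), ← e5]
      field_simp
    have h2 : ∏ k ∈ X.toFinset.erase i, (Dn (z i - z k) * sin (z p - z k + 3 * lam) / sin (z i - z k)) =
        (∏ k ∈ X.toFinset.erase i, Dn (z i - z k)) *
          ∏ k ∈ X.toFinset.erase i, (sin (z p - z k + 3 * lam) / sin (z i - z k)) := by
      rw [← Finset.prod_mul_distrib]
      refine Finset.prod_congr rfl fun k _ => ?_
      rw [mul_div_assoc]
    have h3 : exp (I * (X.length : ℂ) * z p) * exp (-(I * (z p - z i + 3 * lam))) ^ m =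
        exp (I * (z p - z i + 3 * lam)) * exp (I * (X.length : ℂ) * (z i - 3 * lam)) := by
      rw [← Complex.exp_nat_mul, ← Complex.exp_add, ← Complex.exp_add, hm]
      congr 1
      push_cast
      ring
    show exp (I * (X.length : ℂ) * z p) * ((BP z X).eval (e2 (z i - 3 * lam)) *
      ∏ k ∈ X.toFinset.erase i, ((e2 (z p) - e2 (z k - 3 * lam)) /
        (e2 (z i - 3 * lam) - e2 (z k - 3 * lam)))) = _
    rw [h1, h2]
    set P1 := ∏ k ∈ X.toFinset.erase i, Dn (z i - z k)
    set P2 := ∏ k ∈ X.toFinset.erase i, (sin (z p - z k + 3 * lam) / sin (z i - z k))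
    linear_combination ((BP z X).eval (e2 (z i - 3 * lam)) * P2) * h3 +
      (exp (I * (z p - z i + 3 * lam)) * P2) * hnode

end one

/-! ### `z → - z` -/

section neg

variable {ι κ : Type*} {z z' : ι → ℂ} {X Y : List ι} {p q i : ι}

theorem Dn_3sub (u : ℂ) : Dn (3 * lam - u) = Dn u := by
  rw [Dn_cos, Dn_cos, show 3 * lam - u - lam = -(u - 2 * lam) by ring,
    show 3 * lam - u - 2 * lam = -(u - lam) by ring, Complex.cos_neg, Complex.cos_neg]
  ring

/-- **Crossing**, the other node: `z p = z i + 3 l`. -/
theorem BD_hi (h : z p = z i + 3 * lam) :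
    BD z (p :: i :: Y) = c3 * (Y.map fun k => Dn (z k - z i)).prod * BD z Y := by
  rw [BD_perm (List.Perm.swap i p Y), BD_lo (by rw [h]; ring)]
  congr 3
  refine List.map_congr_left fun k _ => ?_
  rw [← Dn_3sub (z k - z i), h]
  congr 1
  ring

theorem BD_map (f : κ → ι) (L : List κ) : BD z (L.map f) = BD (fun k => z (f k)) L := by
  unfold BD
  rw [List.map_map, List.map_map, List.length_map]
  rfl

/-- the polynomial of `- z` -/
theorem BD_neg_pol (z : ι → ℂ) (X : List ι) : ∃ P : Polynomial ℂ, P.natDegree ≤ X.length ∧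
    P.coeff X.length = (X.map fun k => exp (-(I * z k)) / 2).prod * BD (fun k => - z k) X ∧
    ∀ z' : ι → ℂ, (∀ k ∈ X, z' k = z k) →
      exp (I * (X.length : ℂ) * z' p) * BD (fun k => - z' k) (p :: X) = P.eval (exp (2 * I * z' p)) := by
  set Q : Polynomial ℂ := (BP (fun k => - z k) X).comp (Polynomial.C (1 / 2) * Polynomial.X) with hQ
  refine ⟨Q, ?_, ?_, ?_⟩
  · rw [hQ, Polynomial.natDegree_comp]
    have h1 : (Polynomial.C (1 / 2 : ℂ) * Polynomial.X).natDegree ≤ 1 :=
      (Polynomial.natDegree_C_mul_le _ _).trans Polynomial.natDegree_X_le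
    calc (BP (fun k => - z k) X).natDegree * _ ≤ (BP (fun k => - z k) X).natDegree * 1 :=
          Nat.mul_le_mul_left _ h1
      _ ≤ X.length := by rw [mul_one]; exact BP_deg
  · rw [hQ, Polynomial.comp_C_mul_X_coeff, BP_top]
    have h : ∀ L : List ι, (L.map fun k => exp (I * - z k)).prod * (1 / 2 : ℂ) ^ L.length =
        (L.map fun k => exp (-(I * z k)) / 2).prod := by
      intro L
      induction L with
      | nil => simp
      | cons a L ih =>
        rw [List.map_cons, List.map_cons, List.prod_cons, List.prod_cons, ← ih, List.length_cons, pow_succ,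
          mul_neg]
        ring
    rw [← h X]
    ring
  · intro z' hz'
    have e1 : BP (fun k => - z' k) X = BP (fun k => - z k) X := by
      unfold BP
      congr 2
      · congr 1
        exact List.map_congr_left fun k hk => by beta_reduce; rw [hz' k hk]
      · exact List.map_congr_left fun k hk => by beta_reduce; rw [hz' k hk]
    rw [BD_cons_pol, e1, ← mul_assoc, ← Complex.exp_add,
      show I * (X.length : ℂ) * z' p + I * (X.length : ℂ) * - z' p = 0 by ring, Complex.exp_zero, one_mul,
      hQ, Polynomial.eval_comp, Polynomial.eval_mul, Polynomial.eval_C, Polynomial.eval_X]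
    congr 1
    unfold e2
    rw [show -(2 * I * - z' p) = 2 * I * z' p by ring]
    ring

theorem BD_neg_gen : ∀ (n : ℕ) (X : List ι), X.length = n → X.Nodup →
    (∀ i ∈ X, ∀ j ∈ X, i ≠ j → sin (z i - z j) ≠ 0) → BD (fun k => - z k) X = BD z X := by
  classical
  intro n
  induction n using Nat.strong_induction_on with
  | _ n ih =>
    intro X hX hn hs
    rcases X with _ | ⟨p, X⟩
    · rw [BD_nil, BD_nil]
    obtain ⟨hp, hn'⟩ := List.nodup_cons.1 hn
    simp only [List.length_cons] at hX
    have hs' : ∀ i ∈ X, ∀ j ∈ X, i ≠ j → sin (z i - z j) ≠ 0 := fun i hi j hj =>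
      hs i (by simp [hi]) j (by simp [hj])
    have hcard : X.toFinset.card = X.length := List.toFinset_card_of_nodup hn'
    obtain ⟨P, hP1, hP2, _, hP4⟩ := BD_pol (z := z) hp
    obtain ⟨Q, hQ1, hQ2, hQ3⟩ := BD_neg_pol (p := p) z X
    have key : P = Q := by
      refine pol_ext X.toFinset (fun i => exp (2 * I * (z i - 3 * lam))) ?_ (by rw [hcard]; exact hP1)
        (by rw [hcard]; exact hQ1) (by rw [hcard, hP2, hQ2, ih X.length (by omega) X rfl hn' hs'])
        fun i hi => ?_
      · intro i hi j hj e
        by_contra hij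
        refine hs' i (List.mem_toFinset.1 hi) j (List.mem_toFinset.1 hj) hij ?_
        have e' : exp (-(2 * I * (z i - 3 * lam))) = exp (-(2 * I * (z j - 3 * lam))) := by
          beta_reduce at e
          rw [Complex.exp_neg, Complex.exp_neg, e]
        have := e2_inj (a := z i - 3 * lam) (b := z j - 3 * lam) (by unfold e2; rw [e'])
        rwa [sub_sub_sub_cancel_right] at this
      · have hi' := List.mem_toFinset.1 hi
        have hip : i ≠ p := fun e => hp (e ▸ hi')
        set w : ι → ℂ := Function.update z p (z i - 3 * lam) with hw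
        have hwp : w p = z i - 3 * lam := by rw [hw, Function.update_self]
        have hwk : ∀ k ∈ X, w k = z k := fun k hk => by
          have hkp : k ≠ p := fun e => hp (e ▸ hk)
          rw [hw, Function.update_of_ne hkp]
        have h1 := hP4 w hwk
        have h2 := hQ3 w hwk
        rw [hwp] at h1 h2
        rw [← h1, ← h2]
        congr 1
        have hperm := List.perm_cons_erase hi'
        rw [BD_perm (List.Perm.cons p hperm), BD_lo (by rw [hwp, hwk i hi']),
          BD_perm ((List.Perm.cons p hperm).trans (List.Perm.swap i p _)),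
          BD_lo (z := fun k => - w k) (p := i) (i := p) (by
            rw [hwp, hwk i hi']
            ring)]
        have hlen : (X.erase i).length < n := by
          have := List.length_erase_le (a := i) (l := X)
          omega
        have h3 := ih _ hlen (X.erase i) rfl (hn'.erase i) fun a ha b hb =>
          hs' a (List.mem_of_mem_erase ha) b (List.mem_of_mem_erase hb)
        have h4 : BD w (X.erase i) = BD z (X.erase i) := BD_congr fun k hk => hwk k (List.mem_of_mem_erase hk)
        have h5 : BD (fun k => - w k) (X.erase i) = BD (fun k => - z k) (X.erase i) :=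
          BD_congr fun k hk => by rw [hwk k (List.mem_of_mem_erase hk)]
        rw [h4, h5, h3]
        congr 3
        refine List.map_congr_left fun k _ => ?_
        rw [← Dn_3sub, hwp, hwk i hi']
        congr 1
        ring
    have h1 := hP4 z fun _ _ => rfl
    have h2 := hQ3 z fun _ _ => rfl
    rw [key, ← h2] at h1
    exact (mul_left_cancel₀ (Complex.exp_ne_zero _) h1).symm

theorem countable_sin {a c : ℂ} (hc : c ≠ 0) : {t : ℂ | sin (a + t * c) = 0}.Countable := by
  refine (Set.countable_range fun k : ℤ => ((k : ℂ) * Real.pi - a) / c).mono ?_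
  intro t ht
  obtain ⟨k, hk⟩ := Complex.sin_eq_zero_iff.1 ht
  refine ⟨k, ?_⟩
  beta_reduce
  rw [← hk]
  field_simp
  ring

/-- generic directions -/
theorem dense_gen {n : ℕ} (z : Fin n → ℂ) : Dense {t : ℂ | ∀ i j : Fin n, i ≠ j →
    sin (z i + t * ((i : ℕ) : ℂ) - (z j + t * ((j : ℕ) : ℂ))) ≠ 0} := by
  have hc : (⋃ q : {q : Fin n × Fin n // q.1 ≠ q.2},
      {t : ℂ | sin ((z q.1.1 - z q.1.2) + t * (((q.1.1 : ℕ) : ℂ) - ((q.1.2 : ℕ) : ℂ))) = 0}).Countable := by
    refine Set.countable_iUnion fun q => countable_sin ?_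
    rw [sub_ne_zero]
    exact_mod_cast fun e => q.2 (Fin.ext (by exact_mod_cast e))
  refine (hc.dense_compl ℂ).mono fun t ht i j hij => ?_
  rw [Set.mem_compl_iff, Set.mem_iUnion, not_exists] at ht
  have h1 := ht ⟨(i, j), hij⟩
  rw [Set.mem_ofPred_eq] at h1
  intro h2
  apply h1
  rw [← h2]
  congr 1
  ring

/-- an identity for different rapidities holds for all rapidities -/
theorem gen_ext {n : ℕ} {f g : (Fin n → ℂ) → ℂ} (hf : ∀ z w : Fin n → ℂ, Continuous fun t : ℂ => f fun i => z i + t * w i)
    (hg : ∀ z w : Fin n → ℂ, Continuous fun t : ℂ => g fun i => z i + t * w i)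
    (h : ∀ z : Fin n → ℂ, (∀ i j, i ≠ j → sin (z i - z j) ≠ 0) → f z = g z) (z : Fin n → ℂ) : f z = g z := by
  have key := Continuous.ext_on (dense_gen z) (hf z fun i => ((i : ℕ) : ℂ)) (hg z fun i => ((i : ℕ) : ℂ))
    fun t ht => h _ fun i j hij => ht i j hij
  have := congrFun key 0
  simpa using this

/-- **Evenness.** -/
theorem BD_neg (z : ι → ℂ) (X : List ι) : BD (fun k => - z k) X = BD z X := by
  have e : X = (List.finRange X.length).map X.get := by simp
  rw [e, BD_map, BD_map]
  refine gen_ext (f := fun w => BD (fun k => - w k) (List.finRange X.length))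
    (g := fun w => BD w (List.finRange X.length)) ?_ ?_ ?_ (fun k => z (X.get k))
  · intro z w
    exact cont_BD fun k _ => by fun_prop
  · intro z w
    exact cont_BD fun k _ => by fun_prop
  · intro w hw
    exact BD_neg_gen _ _ rfl (List.nodup_finRange _) fun i _ j _ hij => hw i j hij

end neg

end Pool.Agent.NUBD
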