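import Pool.Agent.NUF.PFin
import Pool.Agent.NUBD.BD2

/-!
# The square of the scalars of the disc functional is a disc function without loops

`BD z X ^ 2 = prod exp (2 i (n - 1) z) * 2 ^ (- n (n - 1)) * Wd (exp (- 2 i z))`
-/

set_option autoImplicit false

namespace Pool.Agent.NUBD

open Complex Finset Filter Topology
open Pool.Agent.NUF.Fr
open Pool.Agent.NUF (WW near_WW UU rad rad_NR Nr_iff exists_ctx2 St NR W_eq cv_eq rp rp_append)

/-- The strip function without loops. -/
theorem WW_zero {A B : List ℂ} (hN : NUMv.Nr UU (A ++ B)) :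
    WW 0 A B = qc ((A ++ B).map NUMv.cc) ^ 2 := by
  obtain ⟨m, hm⟩ : ∃ m, m = (A ++ B).length := ⟨_, rfl⟩
  obtain ⟨hN1, hN2⟩ := Nr_iff.1 hN
  rw [← hm] at hN1
  obtain ⟨z, L1, L2, t, h1, h2, h3, rfl, rfl⟩ := exists_ctx2 (m + 1) A B (by omega) hN2 hN1
  have hr : NR (St (m + 1)) (rad m) := rad_NR (by omega)
  rw [W_eq (n' := 0) h1 hr, h1.cx.zero hr, cv_eq, rp_append, mul_one]

/-- The strip function without loops, for all values. -/
theorem Wt_zero (A B : List ℂ) : (near_WW 0).Wt A B = qc (A ++ B) ^ 2 := by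
  have hn : (A ++ B).length = A.length + B.length := List.length_append
  have key := NUMv.ev_eq_ext ((near_WW 0).infinite (A.length + B.length)) (n := A.length + B.length)
    (F := (near_WW 0).F A.length B.length) (G := qF (A.length + B.length) ^ 2)
    (fun L hL hU hL' => by
      obtain ⟨A', B', hA, hB, rfl⟩ := NUMv.split_len hL
      have hC : NUMv.NrC UU (A.length + B.length) (A' ++ B') := ⟨hU, hL'⟩
      have h1 := (near_WW 0).wt_near hC (by omega)
      have h2 := (near_WW 0).nr2 hC (by omega)
      rw [WW_zero h2, ← List.map_append, (near_WW 0).map_cc_zr hU, NUMv.Near.Wt, hA, hB, qc, hL] at h1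
      rw [h1]
      unfold NUMv.ev
      rw [map_pow]) (A ++ B) hn
  rw [NUMv.Near.Wt, key, qc, hn]
  unfold NUMv.ev
  rw [map_pow]

theorem dg_choose (n : ℕ) : NUMv.dg n = 2 * n.choose 2 := by
  induction n with
  | zero => rfl
  | succ n ih => rw [NUMv.dg_succ, ch_succ, ih]; ring

/-- **The disc function without loops.** -/
theorem Wd_zero (A B : List ℂ) : (near_WW 0).Wd A B = hq 0 (A ++ B) ^ 2 := by
  set D := (A ++ B).length.choose 2 with hD
  set p : Polynomial ℂ := ∑ k ∈ range (D + 1), Polynomial.C (hc (qF (A ++ B).length) k (A ++ B)) *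
    Polynomial.X ^ k with hp
  have h1 : (near_WW 0).sc A B = p ^ 2 := by
    refine Polynomial.funext fun s => ?_
    rw [(near_WW 0).sc_eval, Wt_zero, ← List.map_append, Polynomial.eval_pow, hp,
      Polynomial.eval_finsetSum]
    congr 1
    rw [qc_sum, List.length_map]
    refine Finset.sum_congr rfl fun k _ => ?_
    rw [hc_smul, Polynomial.eval_mul, Polynomial.eval_C, Polynomial.eval_pow, Polynomial.eval_X, mul_comm]
  have h2 : p.natDegree ≤ D := by
    refine Polynomial.natDegree_sum_le_of_forall_le _ _ fun k hk => ?_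
    refine (Polynomial.natDegree_C_mul_X_pow_le _ _).trans ?_
    have := Finset.mem_range.1 hk
    omega
  have h3 : p.coeff D = hq 0 (A ++ B) := by
    rw [hp, Polynomial.finsetSum_coeff, Finset.sum_eq_single D, hq_zero_eq]
    · rw [Polynomial.coeff_C_mul, Polynomial.coeff_X_pow, if_pos rfl, mul_one]
    · intro k _ hk
      rw [Polynomial.coeff_C_mul, Polynomial.coeff_X_pow, if_neg (Ne.symm hk), mul_zero]
    · intro h
      exact absurd (Finset.mem_range.2 (by omega)) h
  rw [NUMv.Near.Wd, h1, show A.length + B.length = (A ++ B).length from List.length_append.symm,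
    dg_choose, ← hD, Polynomial.coeff_pow_of_natDegree_le h2, h3]

section sq

variable {ι : Type*} (z : ι → ℂ)

/-- **The square of the scalars.** -/
theorem BD_sq_hq (X : List ι) : BD z X ^ 2 =
    (X.map fun k => exp (2 * I * ((X.length : ℂ) - 1) * z k)).prod * (1 / 2) ^ NUMv.dg X.length *
      hq 0 (X.map fun k => exp (-(2 * I * z k))) ^ 2 := by
  have h1 : (X.map fun k => e2 (z k)) =
      (X.map fun k => exp (-(2 * I * z k))).map fun c => (1 / 2 : ℂ) * c := by
    rw [List.map_map]
    refine List.map_congr_left fun k _ => ?_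
    rw [Function.comp_apply, e2]
    ring
  have h2 : (X.map fun k => exp (2 * I * ((X.length : ℂ) - 1) * z k)).prod =
      (X.map fun k => exp (I * ((X.length : ℂ) - 1) * z k)).prod ^ 2 := by
    rw [sq, ← List.prod_map_mul]
    congr 1
    refine List.map_congr_left fun k _ => ?_
    rw [← Complex.exp_add]
    congr 1
    ring
  unfold BD
  rw [h1, hq_zero_smul, List.length_map, h2, dg_choose, show 2 * X.length.choose 2 =
    X.length.choose 2 * 2 by ring, pow_mul]
  ring

/-- **The square of the scalars is the disc function without loops.** -/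
theorem BD_sq_Wd (S1 S2 : List ι) : BD z (S1 ++ S2) ^ 2 =
    ((S1 ++ S2).map fun k => exp (2 * I * (((S1 ++ S2).length : ℂ) - 1) * z k)).prod *
      (1 / 2) ^ NUMv.dg (S1 ++ S2).length *
      (near_WW 0).Wd (S1.map fun k => exp (-(2 * I * z k))) (S2.map fun k => exp (-(2 * I * z k))) := by
  rw [BD_sq_hq, Wd_zero, ← List.map_append]

/-- **The square of the scalars as a charge sum.** -/
theorem BD_sq_N {σ om : ℂ} (hσ : σ ^ 2 = 2 - NUMv.eta + NUMv.eta ^ 3) (hom : om ^ 2 = -1) {S1 S2 : List ι}
    (hX : NUGas.Gen NUMv.eta (S1.map fun k => exp (-(2 * I * z k))))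
    (hY : NUGas.Gen NUMv.eta (S2.map fun k => exp (-(2 * I * z k)))) : BD z (S1 ++ S2) ^ 2 =
    ((S1 ++ S2).map fun k => exp (2 * I * (((S1 ++ S2).length : ℂ) - 1) * z k)).prod *
      (1 / 2) ^ NUMv.dg (S1 ++ S2).length *
      NUGas.N NUMv.eta σ om (S1.map fun k => exp (-(2 * I * z k)))
        (S2.map fun k => exp (-(2 * I * z k))) := by
  have h0 : om ≠ 0 := by
    rintro rfl
    norm_num at hom
  have h1 : om + om⁻¹ = 0 := by
    field_simp
    linear_combination hom
  have h2 := Pool.Agent.NUF.Wd_formula hσ h0 hX hY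
  rw [h1] at h2
  rw [BD_sq_Wd, h2]

end sq

end Pool.Agent.NUBD
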