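import Pool.Agent.NUBD.BD2
import Pool.Agent.NUU.Disc

/-!
# The scalars of the disc functional are `BD`
-/

set_option autoImplicit false

namespace Pool.Agent.NUBD

open _root_.Pool.Agent.EXL _root_.Pool.Agent.EXL.Pat
open _root_.Pool.Agent.EXL.Fm (lam)
open _root_.Pool.Agent.NUF _root_.Pool.Agent.NUU
open Complex (I exp sin cos)

variable {α : Type*} [DecidableEq α] {z z' : α → ℂ} {X Y : List α} {p q b c : α}

/-- **The value of the disc functional at the empty state.** -/
theorem UD_ind : ∀ (n : ℕ) (X : List α), X.length = n → X.Nodup →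
    (∀ i ∈ X, ∀ j ∈ X, i ≠ j → sin (z i - z j) ≠ 0) →
    UD z X (HS.ind Pat.empty) = BD z X := by
  intro n
  induction n using Nat.strong_induction_on with
  | _ n ih =>
    intro X hX hn hs
    rcases X with _ | ⟨p, X⟩
    · rw [UD_nil, BD_nil, ev0_apply, HS.ind, if_pos rfl]
    obtain ⟨hp, hn'⟩ := List.nodup_cons.1 hn
    simp only [List.length_cons] at hX
    have hs' : ∀ i ∈ X, ∀ j ∈ X, i ≠ j → sin (z i - z j) ≠ 0 := fun i hi j hj =>
      hs i (by simp [hi]) j (by simp [hj])
    rw [UD_cons, BD_cons hn' hs', LinearMap.add_apply, LinearMap.smul_apply, LinearMap.sum_apply,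
      smul_eq_mul, ih X.length (by omega) X rfl hn' hs']
    congr 1
    · congr 1
      refine Finset.prod_congr rfl fun k _ => ?_
      unfold e3 NUU.s3
      rw [show I * (3 * lam) = 3 * I * lam by ring]
      ring
    · refine Finset.sum_congr rfl fun i hi => ?_
      have hi' := List.mem_toFinset.1 hi
      have hpi : p ≠ i := fun e => hp (e ▸ hi')
      have hlen : (X.erase i).length < n := by
        have := List.length_erase_le (a := i) (l := X)
        omega
      rw [LinearMap.comp_apply, Module.End.mul_apply, oE_ind]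
      unfold jn
      rw [LinearMap.add_apply, LinearMap.smul_apply, LinearMap.smul_apply, cu_ind hpi, smul_zero, add_zero,
        Module.End.one_apply, map_smul, smul_eq_mul, ih _ hlen (X.erase i) rfl (hn'.erase i)
          fun a ha b hb => hs' a (List.mem_of_mem_erase ha) b (List.mem_of_mem_erase hb)]
      rfl

end Pool.Agent.NUBD
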