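import Pool.Agent.NUF.Mv.PF

/-!
# Homogeneous components of polynomial functions of lists
-/

set_option autoImplicit false

namespace Pool.Agent.NUBD

open Finset Filter Topology

/-- value of the homogeneous component of degree `k` -/
noncomputable def hc (F : MvPolynomial ℕ ℂ) (k : ℕ) (A : List ℂ) : ℂ :=
  NUMv.ev A (MvPolynomial.homogeneousComponent k F)

theorem pt_smul (a : ℂ) (A : List ℂ) (k : ℕ) :
    NUMv.pt (A.map fun c => a * c) k = a * NUMv.pt A k := by
  unfold NUMv.pt
  have h := List.getD_map (l := A) (n := k) (d := (0 : ℂ)) (fun c => a * c)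
  rw [mul_zero] at h
  exact h

theorem hc_smul (F : MvPolynomial ℕ ℂ) (k : ℕ) (a : ℂ) (A : List ℂ) :
    hc F k (A.map fun c => a * c) = a ^ k * hc F k A := by
  have hF := MvPolynomial.homogeneousComponent_isHomogeneous k F
  unfold hc NUMv.ev
  rw [MvPolynomial.eval_eq, MvPolynomial.eval_eq, Finset.mul_sum]
  refine Finset.sum_congr rfl fun d hd => ?_
  have h1 : ∑ i ∈ d.support, d i = k := by
    have h := hF (MvPolynomial.mem_support_iff.1 hd)
    rw [Finsupp.weight_apply, Finsupp.sum] at h
    simpa using h
  have h2 : ∏ i ∈ d.support, NUMv.pt (A.map fun c => a * c) i ^ d i =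
      a ^ k * ∏ i ∈ d.support, NUMv.pt A i ^ d i := by
    simp only [pt_smul, mul_pow]
    rw [Finset.prod_mul_distrib, Finset.prod_pow_eq_pow_sum, h1]
  rw [h2]
  ring

theorem hc_zero {F : MvPolynomial ℕ ℂ} {k : ℕ} (h : F.totalDegree < k) (A : List ℂ) :
    hc F k A = 0 := by
  unfold hc
  rw [MvPolynomial.homogeneousComponent_eq_zero k F h]
  simp [NUMv.ev]

theorem hc_sum (F : MvPolynomial ℕ ℂ) {N : ℕ} (hN : F.totalDegree ≤ N) (A : List ℂ) :
    NUMv.ev A F = ∑ k ∈ range (N + 1), hc F k A := by
  have h1 : NUMv.ev A F = ∑ k ∈ range (F.totalDegree + 1), hc F k A := by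
    conv_lhs => rw [← MvPolynomial.sum_homogeneousComponent F]
    unfold hc NUMv.ev
    rw [map_sum]
  rw [h1]
  refine Finset.sum_subset (Finset.range_mono (by omega)) fun k _ hk => ?_
  rw [Finset.mem_range, not_lt] at hk
  exact hc_zero (by omega) A

/-- if the components of degree `> D` vanish -/
theorem hc_sum_of {F : MvPolynomial ℕ ℂ} {D : ℕ} {A : List ℂ} (h : ∀ k, D < k → hc F k A = 0) :
    NUMv.ev A F = ∑ k ∈ range (D + 1), hc F k A := by
  rw [hc_sum F (le_max_left F.totalDegree D) A]
  symm
  refine Finset.sum_subset (Finset.range_mono (by omega)) fun k _ hk => ?_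
  rw [Finset.mem_range, not_lt] at hk
  exact h k (by omega)

/-! ### Continuity and differentiability -/

theorem cont_pt {τ : Type*} [TopologicalSpace τ] {L : List (τ → ℂ)} (h : ∀ g ∈ L, Continuous g) (k : ℕ) :
    Continuous fun t => NUMv.pt (L.map fun g => g t) k := by
  induction L generalizing k with
  | nil =>
    simp only [List.map_nil, NUMv.pt, List.getD_nil]
    exact continuous_const
  | cons g L ih =>
    cases k with
    | zero => exact h g (by simp)
    | succ k => exact ih (fun g' hg' => h g' (by simp [hg'])) k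

theorem cont_ev {τ : Type*} [TopologicalSpace τ] {L : List (τ → ℂ)} (h : ∀ g ∈ L, Continuous g)
    (F : MvPolynomial ℕ ℂ) : Continuous fun t => NUMv.ev (L.map fun g => g t) F := by
  unfold NUMv.ev
  exact (MvPolynomial.continuous_eval F).comp (continuous_pi fun k => cont_pt h k)

theorem diff_pt {L : List (ℂ → ℂ)} (h : ∀ g ∈ L, Differentiable ℂ g) (k : ℕ) :
    Differentiable ℂ fun t => NUMv.pt (L.map fun g => g t) k := by
  induction L generalizing k with
  | nil =>
    simp only [List.map_nil, NUMv.pt, List.getD_nil]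
    exact differentiable_const _
  | cons g L ih =>
    cases k with
    | zero => exact h g (by simp)
    | succ k => exact ih (fun g' hg' => h g' (by simp [hg'])) k

theorem diff_ev {L : List (ℂ → ℂ)} (h : ∀ g ∈ L, Differentiable ℂ g) (F : MvPolynomial ℕ ℂ) :
    Differentiable ℂ fun t => NUMv.ev (L.map fun g => g t) F :=
  NUMv.differentiable_eval F _ fun k => diff_pt h k

theorem cont_ev' {τ ι : Type*} [TopologicalSpace τ] {X : List ι} {f : τ → ι → ℂ}
    (h : ∀ i ∈ X, Continuous fun t => f t i) (F : MvPolynomial ℕ ℂ) :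
    Continuous fun t => NUMv.ev (X.map fun i => f t i) F := by
  have e : ∀ t, X.map (fun i => f t i) = (X.map fun i => fun t => f t i).map fun g => g t := by
    intro t
    rw [List.map_map]
    rfl
  simp only [e]
  refine cont_ev (fun g hg => ?_) F
  obtain ⟨i, hi, rfl⟩ := List.mem_map.1 hg
  exact h i hi

theorem diff_ev' {ι : Type*} {X : List ι} {f : ℂ → ι → ℂ}
    (h : ∀ i ∈ X, Differentiable ℂ fun t => f t i) (F : MvPolynomial ℕ ℂ) :
    Differentiable ℂ fun t => NUMv.ev (X.map fun i => f t i) F := by
  have e : ∀ t, X.map (fun i => f t i) = (X.map fun i => fun t => f t i).map fun g => g t := by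
    intro t
    rw [List.map_map]
    rfl
  simp only [e]
  refine diff_ev (fun g hg => ?_) F
  obtain ⟨i, hi, rfl⟩ := List.mem_map.1 hg
  exact h i hi

theorem cont_lprod {τ ι : Type*} [TopologicalSpace τ] {X : List ι} {f : τ → ι → ℂ}
    (h : ∀ i ∈ X, Continuous fun t => f t i) : Continuous fun t => (X.map fun i => f t i).prod := by
  induction X with
  | nil => exact continuous_const
  | cons i X ih =>
    simp only [List.map_cons, List.prod_cons]
    exact (h i (by simp)).mul (ih fun j hj => h j (by simp [hj]))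

theorem diff_lprod {ι : Type*} {X : List ι} {f : ℂ → ι → ℂ}
    (h : ∀ i ∈ X, Differentiable ℂ fun t => f t i) :
    Differentiable ℂ fun t => (X.map fun i => f t i).prod := by
  induction X with
  | nil => exact differentiable_const _
  | cons i X ih =>
    simp only [List.map_cons, List.prod_cons]
    exact (h i (by simp)).mul (ih fun j hj => h j (by simp [hj]))

/-- continuous functions which agree off 0 agree -/
theorem cont_ext {E : Type*} [TopologicalSpace E] [T2Space E] {f g : ℂ → E} (hf : Continuous f)
    (hg : Continuous g) (h : ∀ y, y ≠ 0 → f y = g y) (y : ℂ) : f y = g y := by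
  have hd : Dense ({0}ᶜ : Set ℂ) := dense_compl_singleton 0
  exact congrFun (Continuous.ext_on hd hf hg fun y hy => h y hy) y

/-- every number `≠ 0` is `exp (2 i s)` -/
theorem exists_s {y : ℂ} (hy : y ≠ 0) : ∃ s : ℂ, Complex.exp (2 * Complex.I * s) = y := by
  refine ⟨Complex.log y / (2 * Complex.I), ?_⟩
  rw [mul_div_cancel₀ _ (by simp), Complex.exp_log hy]

end Pool.Agent.NUBD
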