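import Pool.Agent.NUBD.Hom
import Pool.Agent.NUF.ScalF

/-!
# The scalars far away: the homogenised scalars

`y ^ (n (n - 1) / 2) * qc A = hq y (y A)`, `hq` is polynomial in `y` and in the entries of `A`.
-/

set_option autoImplicit false

namespace Pool.Agent.NUBD

open Complex Finset Filter Topology
open Pool.Agent.NUF.Fr
open Pool.Agent.EXL.Fm (lam Dn)

/-! ### The functions of `y = exp (2 i s)` -/

/-- `y cos (a - 2 s)` -/
noncomputable def cF (a y : ℂ) : ℂ := (exp (I * a) + y ^ 2 * exp (-(I * a))) / 2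

/-- `y sin (a - 2 s)` -/
noncomputable def sF (a y : ℂ) : ℂ := (exp (I * a) - y ^ 2 * exp (-(I * a))) / (2 * I)

theorem cF_eq (a s : ℂ) : cF a (exp (2 * I * s)) = exp (2 * I * s) * cos (a - 2 * s) := by
  unfold cF
  have h1 : exp (I * a) = exp (2 * I * s) * exp ((a - 2 * s) * I) := by
    rw [← Complex.exp_add]
    congr 1
    ring
  have h2 : exp (2 * I * s) ^ 2 * exp (-(I * a)) = exp (2 * I * s) * exp (-(a - 2 * s) * I) := by
    rw [← Complex.exp_nat_mul, ← Complex.exp_add, ← Complex.exp_add]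
    congr 1
    push_cast
    ring
  rw [Complex.cos, h1, h2]
  ring

theorem sF_eq (a s : ℂ) : sF a (exp (2 * I * s)) = exp (2 * I * s) * sin (a - 2 * s) := by
  unfold sF
  have h1 : exp (I * a) = exp (2 * I * s) * exp ((a - 2 * s) * I) := by
    rw [← Complex.exp_add]
    congr 1
    ring
  have h2 : exp (2 * I * s) ^ 2 * exp (-(I * a)) = exp (2 * I * s) * exp (-(a - 2 * s) * I) := by
    rw [← Complex.exp_nat_mul, ← Complex.exp_add, ← Complex.exp_add]
    congr 1
    push_cast
    ring
  rw [Complex.sin, h1, h2]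
  have hI : (2 * I : ℂ) ≠ 0 := by simp
  rw [div_eq_iff hI]
  linear_combination (- exp (2 * I * s) * (exp (-(a - 2 * s) * I) - exp ((a - 2 * s) * I))) * I_sq

theorem cF_zero (a : ℂ) : cF a 0 = exp (I * a) / 2 := by
  unfold cF
  ring

theorem sF_zero (a : ℂ) : sF a 0 = exp (I * a) / (2 * I) := by
  unfold sF
  ring

theorem cont_cF (a : ℂ) : Continuous (cF a) := by
  unfold cF
  fun_prop

theorem cont_sF (a : ℂ) : Continuous (sF a) := by
  unfold sF
  fun_prop

/-! ### The recursion for all shifts -/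

theorem diff_cf (a : ℂ) : Differentiable ℂ fun s => cf (a - s) := by
  unfold cf
  fun_prop

theorem qc_ev {ι : Type*} (X : List ι) (f : ι → ℂ) :
    qc (X.map f) = NUMv.ev (X.map f) (qF X.length) := by
  unfold qc
  rw [List.length_map]

theorem diff_qc {ι : Type*} {X : List ι} {f : ℂ → ι → ℂ}
    (h : ∀ i ∈ X, Differentiable ℂ fun t => f t i) :
    Differentiable ℂ fun t => qc (X.map fun i => f t i) := by
  simp only [qc_ev]
  exact diff_ev' h _

/-- the right side of the recursion -/
noncomputable def rhs {ι : Type*} [DecidableEq ι] (x : ι → ℂ) (X : List ι) (u s : ℂ) : ℂ :=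
  (∏ k ∈ X.toFinset, dl (u - s) (x k - s)) * qc (X.map fun i => cf (x i - s)) +
    ∑ i ∈ X.toFinset, (4 * c3 * fa' (x i - s) * fe (x i - s)) *
      (∏ k ∈ X.toFinset.erase i, pr (x k - s) (x i - s)) *
      (∏ k ∈ X.toFinset.erase i, dl (u - s) (x k - s)) * qc ((X.erase i).map fun i => cf (x i - s))

theorem dl_shift (u x s : ℂ) : dl (u - s) (x - s) =
    cos (2 * u - 3 * lam - 2 * s) - cos (2 * x + 3 * lam - 2 * s) := by
  rw [Pool.Agent.NUF.Fr.dl_cf]
  unfold cf cp
  congr 2 <;> ring

theorem pr_shift (x y s : ℂ) : pr (x - s) (y - s) =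
    2 * Dn (x - y) / sin (x - y) * sin (y + x + 2 * lam - 2 * s) := by
  unfold pr
  rw [show x - s - (y - s) = x - y by ring, show y - s + (x - s) + 2 * lam = y + x + 2 * lam - 2 * s by ring]
  ring

theorem fa_fe_shift (x s : ℂ) : fa' (x - s) * fe (x - s) =
    (cos (2 * x - 2 * s) - cos (6 * lam)) / 2 := by
  unfold fa' fe
  have h := two_sin_sin (3 * lam - (x - s)) (3 * lam + (x - s))
  have e1 : cos (3 * lam - (x - s) - (3 * lam + (x - s))) = cos (2 * x - 2 * s) := by
    rw [← Complex.cos_neg]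
    congr 1
    ring
  have e2 : cos (3 * lam - (x - s) + (3 * lam + (x - s))) = cos (6 * lam) := by
    congr 1
    ring
  rw [e1, e2] at h
  linear_combination h / 2

theorem diff_rhs {ι : Type*} [DecidableEq ι] (x : ι → ℂ) (X : List ι) (u : ℂ) :
    Differentiable ℂ (rhs x X u) := by
  have hq : ∀ Y : List ι, Differentiable ℂ fun s => qc (Y.map fun i => cf (x i - s)) :=
    fun Y => diff_qc fun i _ => diff_cf (x i)
  have hd : ∀ k, Differentiable ℂ fun s => dl (u - s) (x k - s) := fun k => by
    simp only [dl_shift]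
    fun_prop
  have hp : ∀ k i, Differentiable ℂ fun s => pr (x k - s) (x i - s) := fun k i => by
    simp only [pr_shift]
    fun_prop
  have hf : ∀ i, Differentiable ℂ fun s => 4 * c3 * fa' (x i - s) * fe (x i - s) := fun i => by
    unfold fa' fe
    fun_prop
  have hP : ∀ (Y : Finset ι) (g : ι → ℂ → ℂ), (∀ k, Differentiable ℂ (g k)) →
      Differentiable ℂ fun s => ∏ k ∈ Y, g k s := by
    intro Y g hg
    exact Differentiable.fun_finsetProd fun k _ => hg k
  unfold rhs
  refine Differentiable.add ((hP _ _ hd).mul (hq X)) ?_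
  refine Differentiable.fun_sum fun i _ => ?_
  exact (((hf i).mul (hP _ _ fun k => hp k i)).mul (hP _ _ hd)).mul (hq _)

theorem isOpen_nb : IsOpen nb := Metric.isOpen_ball.union Metric.isOpen_ball

section rec

variable {ι : Type*} [DecidableEq ι] {x : ι → ℂ} {X : List ι}

/-- **The recursion, all shifts.** -/
theorem rec_s (hn : X.Nodup) (hi : ∀ i ∈ X, ∀ j ∈ X, x i = x j → i = j) (hb : ∀ i ∈ X, x i ∈ nb)
    (u s : ℂ) : qc (cf (u - s) :: X.map fun i => cf (x i - s)) = rhs x X u s := by
  have hL : Differentiable ℂ fun s => qc (cf (u - s) :: X.map fun i => cf (x i - s)) := by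
    have h := diff_ev (L := (fun s => cf (u - s)) :: X.map fun i => fun s => cf (x i - s)) (by
      intro g hg
      rcases List.mem_cons.1 hg with rfl | hg
      · exact diff_cf u
      · obtain ⟨i, _, rfl⟩ := List.mem_map.1 hg
        exact diff_cf (x i)) (qF (X.length + 1))
    refine h.congr_fun' fun s => ?_
    rw [List.map_cons, List.map_map]
    unfold qc
    rw [List.length_cons, List.length_map]
    rfl
  -- near `s = 0`
  have hopen : ∀ᶠ s : ℂ in 𝓝 0, ∀ i ∈ X, x i - s ∈ nb := by
    have h1 : ∀ i ∈ X.toFinset, ∀ᶠ s : ℂ in 𝓝 0, x i - s ∈ nb := by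
      intro i hi'
      have hc : ContinuousAt (fun s : ℂ => x i - s) 0 := by fun_prop
      exact hc.eventually_mem (isOpen_nb.mem_nhds (by
        rw [sub_zero]
        exact hb i (List.mem_toFinset.1 hi')))
    have h2 := (Filter.eventually_all_finset X.toFinset).2 h1
    exact h2.mono fun s hs i hi' => hs i (List.mem_toFinset.2 hi')
  obtain ⟨U, hU1, hU2, hU3⟩ := mem_nhds_iff.1 hopen
  refine NUMv.entire_ext hU2 ⟨0, hU3⟩ hL (diff_rhs x X u) (fun s hs => ?_) s
  have hs' : ∀ i ∈ X, x i - s ∈ nb := hU1 hs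
  have hi' : ∀ i ∈ X, ∀ j ∈ X, x i - s = x j - s → i = j := fun i h1 j h2 e =>
    hi i h1 j h2 (sub_left_inj.1 e)
  have h1 := qc_far_lab (z := fun i => x i - s) hn hi' hs' (u - s)
  show qc (cf (u - s) :: X.map fun i => cf (x i - s)) = _
  rw [h1]
  unfold Nf rhs
  rw [← qc_lab (z := fun i => x i - s) hn hi' hs']
  congr 1
  refine Finset.sum_congr rfl fun i hiX => ?_
  have hiX' := List.mem_toFinset.1 hiX
  have h2 : X.toFinset.erase i = (X.erase i).toFinset := by
    ext a
    rw [Finset.mem_erase, List.mem_toFinset, List.mem_toFinset, hn.mem_erase_iff]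
  have h3 : Qs (fun i => x i - s) (X.toFinset.erase i) = qc ((X.erase i).map fun i => cf (x i - s)) := by
    rw [h2]
    exact (qc_lab (z := fun i => x i - s) (hn.erase i)
      (fun a ha b hb' e => hi' a (List.mem_of_mem_erase ha) b (List.mem_of_mem_erase hb') e)
      fun a ha => hs' a (List.mem_of_mem_erase ha)).symm
  rw [h3]
  unfold wt Dl
  ring

/-! ### The growth -/

/-- **The scalars are of order `y ^ (- n (n - 1) / 2)`.** -/
theorem growth : ∀ (n : ℕ) (X : List ι), X.length = n → X.Nodup →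
    (∀ i ∈ X, ∀ j ∈ X, x i = x j → i = j) → (∀ i ∈ X, x i ∈ nb) →
    ∃ g : ℂ → ℂ, Continuous g ∧
      ∀ s, exp (2 * I * s) ^ (n.choose 2) * qc (X.map fun i => cf (x i - s)) = g (exp (2 * I * s)) := by
  intro n
  induction n using Nat.strong_induction_on with
  | _ n ih =>
    intro X hX hn hi hb
    rcases X with _ | ⟨p, X⟩
    · refine ⟨fun _ => 1, continuous_const, fun s => ?_⟩
      simp only [List.length_nil] at hX
      rw [← hX]
      simp only [List.map_nil, qc_nil]
      norm_num
    obtain ⟨m, rfl⟩ : ∃ m, n = m + 1 := ⟨X.length, by simpa using hX.symm⟩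
    have hXm : X.length = m := by simpa using hX
    have hn2 := (List.nodup_cons.1 hn).2
    have hi2 : ∀ i ∈ X, ∀ j ∈ X, x i = x j → i = j := fun i h1 j h2 => hi i (by simp [h1]) j (by simp [h2])
    have hb2 : ∀ i ∈ X, x i ∈ nb := fun i h => hb i (by simp [h])
    obtain ⟨g0, hg0, hg0'⟩ := ih m (by omega) X hXm hn2 hi2 hb2
    have hch : (m + 1).choose 2 = m + m.choose 2 := by
      rw [Nat.choose_succ_succ' m 1, Nat.choose_one_right]
    have hD : ∀ Y : Finset ι, ∀ s, exp (2 * I * s) ^ Y.card * ∏ k ∈ Y, dl (x p - s) (x k - s) =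
        ∏ k ∈ Y, (cF (2 * x p - 3 * lam) (exp (2 * I * s)) - cF (2 * x k + 3 * lam) (exp (2 * I * s))) := by
      intro Y s
      rw [← Finset.prod_const, ← Finset.prod_mul_distrib]
      refine Finset.prod_congr rfl fun k _ => ?_
      rw [dl_shift, cF_eq, cF_eq]
      ring
    have hPr : ∀ (i : ι) (Y : Finset ι), ∀ s, exp (2 * I * s) ^ Y.card *
        ∏ k ∈ Y, pr (x k - s) (x i - s) =
        ∏ k ∈ Y, (2 * Dn (x k - x i) / sin (x k - x i) * sF (x i + x k + 2 * lam) (exp (2 * I * s))) := by
      intro i Y s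
      rw [← Finset.prod_const, ← Finset.prod_mul_distrib]
      refine Finset.prod_congr rfl fun k _ => ?_
      rw [pr_shift, sF_eq]
      ring
    have hcard : X.toFinset.card = m := by rw [List.toFinset_card_of_nodup hn2, hXm]
    have hG : ∀ i ∈ X.toFinset, ∃ g : ℂ → ℂ, Continuous g ∧ ∀ s, exp (2 * I * s) ^ ((m - 1).choose 2) *
        qc ((X.erase i).map fun i => cf (x i - s)) = g (exp (2 * I * s)) := by
      intro i hiX
      have hiX' := List.mem_toFinset.1 hiX
      exact ih (m - 1) (by omega) (X.erase i) (by rw [List.length_erase_of_mem hiX', hXm])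
        (hn2.erase i) (fun a ha b hb' e => hi2 a (List.mem_of_mem_erase ha) b (List.mem_of_mem_erase hb') e)
        fun a ha => hb2 a (List.mem_of_mem_erase ha)
    choose! G hG1 hG2 using hG
    refine ⟨fun y => (∏ k ∈ X.toFinset, (cF (2 * x p - 3 * lam) y - cF (2 * x k + 3 * lam) y)) * g0 y +
      ∑ i ∈ X.toFinset, (4 * c3 * ((cF (2 * x i) y - y * cos (6 * lam)) / 2)) *
        (∏ k ∈ X.toFinset.erase i, (2 * Dn (x k - x i) / sin (x k - x i) * sF (x i + x k + 2 * lam) y)) *
        (∏ k ∈ X.toFinset.erase i, (cF (2 * x p - 3 * lam) y - cF (2 * x k + 3 * lam) y)) * G i y,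
      ?_, fun s => ?_⟩
    · have c1 := cont_cF
      have c2 := cont_sF
      have hP : ∀ (Y : Finset ι) (g : ι → ℂ → ℂ), (∀ k, Continuous (g k)) →
          Continuous fun s => ∏ k ∈ Y, g k s := fun Y g hg => continuous_finsetProd _ fun k _ => hg k
      refine ((hP _ _ fun k => (c1 _).sub (c1 _)).mul hg0).add ?_
      refine continuous_finsetSum _ fun i hiX => ?_
      refine (((continuous_const.mul ((((c1 _).sub (continuous_id.mul continuous_const)).div_const _))).mul
        (hP _ _ fun k => continuous_const.mul (c2 _))).mul (hP _ _ fun k => (c1 _).sub (c1 _))).mul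
        (hG1 i hiX)
    · have h0 := rec_s hn2 hi2 hb2 (x p) s
      rw [List.map_cons, h0, rhs, mul_add, Finset.mul_sum, hch, pow_add]
      congr 1
      · have h1 := hD X.toFinset s
        rw [hcard] at h1
        rw [← hg0' s, ← h1]
        ring
      · refine Finset.sum_congr rfl fun i hiX => ?_
        have hpos : 0 < m := by
          rw [← hcard]
          exact Finset.card_pos.2 ⟨i, hiX⟩
        obtain ⟨r, rfl⟩ : ∃ r, m = r + 1 := ⟨m - 1, by omega⟩
        have hcd : (X.toFinset.erase i).card = r := by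
          rw [Finset.card_erase_of_mem hiX, hcard]
          rfl
        have h1 := hD (X.toFinset.erase i) s
        have h2 := hPr i (X.toFinset.erase i) s
        have h3 := hG2 i hiX s
        rw [hcd] at h1 h2
        rw [Nat.add_sub_cancel] at h3
        have hch2 : (r + 1).choose 2 = r + r.choose 2 := by
          rw [Nat.choose_succ_succ' r 1, Nat.choose_one_right]
        have h4 : exp (2 * I * s) * (fa' (x i - s) * fe (x i - s)) =
            (cF (2 * x i) (exp (2 * I * s)) - exp (2 * I * s) * cos (6 * lam)) / 2 := by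
          rw [fa_fe_shift, cF_eq]
          ring
        rw [hch2, ← h1, ← h2, ← h3, ← h4]
        ring

end rec

end Pool.Agent.NUBD
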