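import Pool.Agent.NUBD.Hq

/-!
# The homogenised scalars

`hq y A`: `y ^ (n (n - 1) / 2) * qc A = hq y (y A)`.
-/

set_option autoImplicit false

namespace Pool.Agent.NUBD

open Complex Finset Filter Topology
open Pool.Agent.NUF.Fr
open Pool.Agent.EXL.Fm (lam Dn)

/-! ### The degree -/

theorem exists_far_infinite : (((fun u : ℂ => exp (I * (2 * u - 3 * lam)) / 2) '' nb1)).Infinite := by
  refine nb1_inf.image fun u hu v hv e => ?_
  have e1 : exp (I * (2 * u - 3 * lam)) = exp (I * (2 * v - 3 * lam)) := by
    have := congrArg (fun t : ℂ => t * 2) e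
    simpa using this
  have e2 : cf u = cf v := by
    unfold cf
    rw [Complex.cos, Complex.cos, show (2 * u - 3 * lam) * I = I * (2 * u - 3 * lam) by ring,
      show (2 * v - 3 * lam) * I = I * (2 * v - 3 * lam) by ring,
      show -(2 * u - 3 * lam) * I = -(I * (2 * u - 3 * lam)) by ring,
      show -(2 * v - 3 * lam) * I = -(I * (2 * v - 3 * lam)) by ring, Complex.exp_neg, Complex.exp_neg, e1]
  exact cf_inj hu hv e2

/-- **The components of high degree vanish.** -/
theorem hc_van (n : ℕ) : ∀ k, n.choose 2 < k → ∀ A : List ℂ, A.length = n → hc (qF n) k A = 0 := by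
  classical
  set D := n.choose 2 with hD
  set N := (qF n).totalDegree with hN
  suffices H : ∀ j k, D < k → N < k + j → ∀ A : List ℂ, A.length = n → hc (qF n) k A = 0 from
    fun k hk => H (N + 1) k hk (by omega)
  intro j
  induction j with
  | zero =>
    intro k _ hk A _
    exact hc_zero (by omega) A
  | succ j ih =>
    intro k hk hkj
    have hup : ∀ k', k < k' → ∀ A : List ℂ, A.length = n → hc (qF n) k' A = 0 := fun k' hk' =>
      ih k' (by omega) (by omega)
    refine NUMv.ev_zero_ext exists_far_infinite n _ fun A hA hU hn => ?_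
    show hc (qF n) k A = 0
    have hch : ∀ a, ∃ u, a ∈ ((fun u : ℂ => exp (I * (2 * u - 3 * lam)) / 2) '' nb1) →
        u ∈ nb1 ∧ exp (I * (2 * u - 3 * lam)) / 2 = a := by
      intro a
      by_cases ha : a ∈ ((fun u : ℂ => exp (I * (2 * u - 3 * lam)) / 2) '' nb1)
      · obtain ⟨u, hu1, hu2⟩ := ha
        exact ⟨u, fun _ => ⟨hu1, hu2⟩⟩
      · exact ⟨0, fun h => absurd h ha⟩
    choose x hx using hch
    have hi : ∀ i ∈ A, ∀ j ∈ A, x i = x j → i = j := by
      intro i hi j hj e
      rw [← (hx i (hU i hi)).2, ← (hx j (hU j hj)).2, e]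
    obtain ⟨g, hg1, hg2⟩ := growth (x := x) n A hA hn hi fun i hi => nb1_sub (hx i (hU i hi)).1
    -- the two sides as functions of `y`
    have key : ∀ y : ℂ, y ≠ 0 → ∑ k' ∈ range (k + 1), y ^ (k - k') *
        hc (qF n) k' (A.map fun a => cF (2 * x a - 3 * lam) y) = y ^ (k - D) * g y := by
      intro y hy
      obtain ⟨s, hs⟩ := exists_s hy
      have h1 := hg2 s
      rw [hs] at h1
      rw [← h1, ← mul_assoc, ← pow_add, show k - D + n.choose 2 = k by rw [← hD]; omega]
      have h2 : qc (A.map fun a => cf (x a - s)) =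
          ∑ k' ∈ range (k + 1), hc (qF n) k' (A.map fun a => cf (x a - s)) := by
        rw [qc_ev, hA]
        exact hc_sum_of fun k' hk' => hup k' hk' _ (by rw [List.length_map, hA])
      rw [h2, Finset.mul_sum]
      refine Finset.sum_congr rfl fun k' hk' => ?_
      rw [Finset.mem_range] at hk'
      have h3 : (A.map fun a => cF (2 * x a - 3 * lam) y) =
          (A.map fun a => cf (x a - s)).map fun c => y * c := by
        rw [List.map_map]
        refine List.map_congr_left fun a _ => ?_
        rw [Function.comp_apply, ← hs, cF_eq]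
        congr 1
        unfold cf
        congr 1
        ring
      rw [h3, hc_smul, ← mul_assoc, ← pow_add, show k - k' + k' = k by omega]
    have hc1 : Continuous fun y : ℂ => ∑ k' ∈ range (k + 1), y ^ (k - k') *
        hc (qF n) k' (A.map fun a => cF (2 * x a - 3 * lam) y) :=
      continuous_finsetSum _ fun k' _ => (continuous_pow _).mul
        (cont_ev' (f := fun y a => cF (2 * x a - 3 * lam) y) (fun a _ => cont_cF _) _)
    have hc2 : Continuous fun y : ℂ => y ^ (k - D) * g y := (continuous_pow _).mul hg1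
    have h0 := cont_ext hc1 hc2 key 0
    beta_reduce at h0
    rw [zero_pow (by omega), zero_mul, Finset.sum_range_succ, Nat.sub_self, pow_zero, one_mul,
      Finset.sum_eq_zero fun k' hk' => by
        rw [Finset.mem_range] at hk'
        rw [zero_pow (by omega), zero_mul], zero_add] at h0
    have h4 : (A.map fun a => cF (2 * x a - 3 * lam) 0) = A := by
      conv_rhs => rw [← List.map_id A]
      refine List.map_congr_left fun a ha => ?_
      rw [cF_zero, (hx a (hU a ha)).2]
      rfl
    rw [h4] at h0
    exact h0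

/-! ### The homogenised scalars -/

/-- **The homogenised scalars.** -/
noncomputable def hq (y : ℂ) (A : List ℂ) : ℂ :=
  ∑ k ∈ range (A.length.choose 2 + 1), y ^ (A.length.choose 2 - k) * hc (qF A.length) k A

theorem qc_sum (A : List ℂ) : qc A = ∑ k ∈ range (A.length.choose 2 + 1), hc (qF A.length) k A :=
  hc_sum_of fun k hk => hc_van _ k hk A rfl

/-- **Scaling.** -/
theorem hq_smul (y : ℂ) (A : List ℂ) :
    hq y (A.map fun c => y * c) = y ^ (A.length.choose 2) * qc A := by
  unfold hq
  rw [List.length_map, qc_sum, Finset.mul_sum]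
  refine Finset.sum_congr rfl fun k hk => ?_
  rw [Finset.mem_range] at hk
  rw [hc_smul, ← mul_assoc, ← pow_add, show A.length.choose 2 - k + k = A.length.choose 2 by omega]

theorem map_inv_mul {y : ℂ} (hy : y ≠ 0) (A : List ℂ) :
    (A.map fun c => y⁻¹ * c).map (fun c => y * c) = A := by
  rw [List.map_map]
  conv_rhs => rw [← List.map_id A]
  refine List.map_congr_left fun a _ => ?_
  rw [Function.comp_apply, mul_inv_cancel_left₀ hy]
  rfl

theorem hq_ne {y : ℂ} (hy : y ≠ 0) (A : List ℂ) :
    hq y A = y ^ (A.length.choose 2) * qc (A.map fun c => y⁻¹ * c) := by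
  have h := hq_smul y (A.map fun c => y⁻¹ * c)
  rw [map_inv_mul hy, List.length_map] at h
  exact h

theorem hq_zero_eq (A : List ℂ) : hq 0 A = hc (qF A.length) (A.length.choose 2) A := by
  unfold hq
  rw [Finset.sum_range_succ, Nat.sub_self, pow_zero, one_mul, Finset.sum_eq_zero fun k hk => by
    rw [Finset.mem_range] at hk
    rw [zero_pow (by omega), zero_mul], zero_add]

/-- the scalars at `y = 0` are homogeneous -/
theorem hq_zero_smul (a : ℂ) (A : List ℂ) :
    hq 0 (A.map fun c => a * c) = a ^ (A.length.choose 2) * hq 0 A := by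
  rw [hq_zero_eq, hq_zero_eq, List.length_map, hc_smul]

theorem hq_nil (y : ℂ) : hq y [] = 1 := by
  have h := hq_smul y []
  rw [List.map_nil, qc_nil, mul_one] at h
  rw [h]
  simp

theorem cont_hq {τ ι : Type*} [TopologicalSpace τ] {X : List ι} {y : τ → ℂ} {f : τ → ι → ℂ}
    (hy : Continuous y) (h : ∀ i ∈ X, Continuous fun t => f t i) :
    Continuous fun t => hq (y t) (X.map fun i => f t i) := by
  unfold hq
  simp only [List.length_map]
  exact continuous_finsetSum _ fun k _ => (hy.pow _).mul (cont_ev' h _)

theorem diff_hq {ι : Type*} {X : List ι} {y : ℂ → ℂ} {f : ℂ → ι → ℂ}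
    (hy : Differentiable ℂ y) (h : ∀ i ∈ X, Differentiable ℂ fun t => f t i) :
    Differentiable ℂ fun t => hq (y t) (X.map fun i => f t i) := by
  unfold hq
  simp only [List.length_map]
  exact Differentiable.fun_sum fun k _ => (hy.fun_pow _).mul (diff_ev' h _)

theorem cont_hq_y (A : List ℂ) : Continuous fun y => hq y A := by
  have h := cont_hq (X := A) (y := fun y : ℂ => y) (f := fun _ a => a) continuous_id
    fun a _ => continuous_const
  simpa only [List.map_id'] using h

/-- **Symmetry.** -/
theorem hq_perm {A B : List ℂ} (h : A.Perm B) (y : ℂ) : hq y A = hq y B := by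
  refine cont_ext (cont_hq_y A) (cont_hq_y B) (fun y hy => ?_) y
  rw [hq_ne hy, hq_ne hy, h.length_eq, qc_perm (h.map _)]

/-- **The shifted rows.** -/
theorem hq_shift {ι : Type*} (X : List ι) (x : ι → ℂ) (s : ℂ) :
    hq (exp (2 * I * s)) (X.map fun i => cF (2 * x i - 3 * lam) (exp (2 * I * s))) =
      exp (2 * I * s) ^ (X.length.choose 2) * qc (X.map fun i => cf (x i - s)) := by
  have h := hq_smul (exp (2 * I * s)) (X.map fun i => cf (x i - s))
  rw [List.map_map, List.length_map] at h
  rw [← h]
  congr 1
  refine List.map_congr_left fun i _ => ?_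
  rw [Function.comp_apply, cF_eq]
  congr 2
  ring

/-! ### The dependence on one entry -/

/-- the polynomial in the first entry -/
noncomputable def hqP (y : ℂ) (A : List ℂ) : Polynomial ℂ :=
  ∑ k ∈ range ((A.length + 1).choose 2 + 1), Polynomial.C (y ^ ((A.length + 1).choose 2 - k)) *
    NUMv.pol A (MvPolynomial.homogeneousComponent k (qF (A.length + 1)))

theorem hq_cons (y t : ℂ) (A : List ℂ) : hq y (t :: A) = (hqP y A).eval t := by
  unfold hq hqP hc
  rw [Polynomial.eval_finsetSum, List.length_cons]
  refine Finset.sum_congr rfl fun k _ => ?_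
  rw [Polynomial.eval_mul, Polynomial.eval_C, ← NUMv.ev_cons]

theorem coeff_hqP (y : ℂ) (A : List ℂ) (j : ℕ) : (hqP y A).coeff j =
    ∑ k ∈ range ((A.length + 1).choose 2 + 1), y ^ ((A.length + 1).choose 2 - k) *
      (NUMv.pol A (MvPolynomial.homogeneousComponent k (qF (A.length + 1)))).coeff j := by
  unfold hqP
  rw [Polynomial.finsetSum_coeff]
  refine Finset.sum_congr rfl fun k _ => ?_
  rw [Polynomial.coeff_C_mul]

theorem cont_coeff (A : List ℂ) (j : ℕ) : Continuous fun y => (hqP y A).coeff j := by
  simp only [coeff_hqP]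
  exact continuous_finsetSum _ fun k _ => (continuous_pow _).mul continuous_const

theorem hqP_ne {y : ℂ} (hy : y ≠ 0) (A : List ℂ) : hqP y A =
    Polynomial.C (y ^ ((A.length + 1).choose 2)) *
      (qP (A.map fun c => y⁻¹ * c)).comp (Polynomial.C y⁻¹ * Polynomial.X) := by
  refine Polynomial.funext fun t => ?_
  rw [← hq_cons, hq_ne hy, List.length_cons, List.map_cons, qP_eval, Polynomial.eval_mul,
    Polynomial.eval_C, Polynomial.eval_comp, Polynomial.eval_mul, Polynomial.eval_C, Polynomial.eval_X]

theorem coeff_hqP_ne {y : ℂ} (hy : y ≠ 0) (A : List ℂ) (j : ℕ) : (hqP y A).coeff j =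
    y ^ ((A.length + 1).choose 2) * (y⁻¹ ^ j * (qP (A.map fun c => y⁻¹ * c)).coeff j) := by
  rw [hqP_ne hy, Polynomial.coeff_C_mul, Polynomial.comp_C_mul_X_coeff]
  ring

theorem ch_succ (n : ℕ) : (n + 1).choose 2 = n + n.choose 2 := by
  rw [Nat.choose_succ_succ' n 1, Nat.choose_one_right]

/-- **The degree.** -/
theorem hqP_deg (y : ℂ) (A : List ℂ) : (hqP y A).natDegree ≤ A.length := by
  rw [Polynomial.natDegree_le_iff_coeff_eq_zero]
  intro j hj
  refine cont_ext (cont_coeff A j) continuous_const (fun y hy => ?_) y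
  rw [coeff_hqP_ne hy, Polynomial.coeff_eq_zero_of_natDegree_lt, mul_zero, mul_zero]
  refine (qP_natDegree _).trans_lt ?_
  rwa [List.length_map]

/-- **The top coefficient.** -/
theorem hqP_top (y : ℂ) (A : List ℂ) : (hqP y A).coeff A.length = hq y A := by
  refine cont_ext (cont_coeff A A.length) (cont_hq_y A) (fun y hy => ?_) y
  have h := qP_coeff (A.map fun c => y⁻¹ * c)
  rw [List.length_map] at h
  rw [coeff_hqP_ne hy, h, hq_ne hy, ch_succ, pow_add, inv_pow]
  field_simp

/-! ### The relations at all `q` -/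

theorem qc_cross_all (q : ℂ) (L : List ℂ) : qc (cp q :: cf q :: L) =
    (cp q + cf q + (c1 - c3)) * (L.map (ph q)).prod * qc L := by
  have h1 : Differentiable ℂ fun q => qc (cp q :: cf q :: L) := by
    show Differentiable ℂ fun q => NUMv.ev (cp q :: cf q :: L) (qF (L.length + 2))
    refine NUMv.differentiable_ev_cons2 _ cp cf ?_ ?_ L
    · unfold cp
      fun_prop
    · unfold cf
      fun_prop
  have h2 : Differentiable ℂ fun q => (cp q + cf q + (c1 - c3)) * (L.map (ph q)).prod * qc L := by
    refine Differentiable.mul (Differentiable.mul ?_ ?_) (differentiable_const _)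
    · unfold cp cf
      fun_prop
    · refine diff_lprod (f := fun q c => ph q c) fun c _ => ?_
      unfold ph ca cb
      fun_prop
  refine NUMv.entire_ext isOpen_nb ?_ h1 h2 (fun q hq => qc_cross hq L) q
  exact ⟨lam, Or.inl (Metric.mem_ball_self rG_pos)⟩

theorem qc_fuse_all (q : ℂ) (L : List ℂ) : qc (cf q :: cf (q - 2 * lam) :: L) =
    2 * s2 * (cf (q - lam) + c3) * (L.map (fun c => cf (q - lam) + c)).prod *
      qc (cf (q - lam) :: L) := by
  have h1 : Differentiable ℂ fun q => qc (cf q :: cf (q - 2 * lam) :: L) := by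
    show Differentiable ℂ fun q => NUMv.ev (cf q :: cf (q - 2 * lam) :: L) (qF (L.length + 2))
    refine NUMv.differentiable_ev_cons2 _ cf (fun q => cf (q - 2 * lam)) ?_ ?_ L
    · unfold cf
      fun_prop
    · unfold cf
      fun_prop
  have h3 : Differentiable ℂ fun q => qc (cf (q - lam) :: L) := by
    show Differentiable ℂ fun q => NUMv.ev (cf (q - lam) :: L) (qF (L.length + 1))
    refine NUMv.differentiable_ev_cons _ (fun q => cf (q - lam)) ?_ L
    unfold cf
    fun_prop
  have h2 : Differentiable ℂ fun q => 2 * s2 * (cf (q - lam) + c3) *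
      (L.map (fun c => cf (q - lam) + c)).prod * qc (cf (q - lam) :: L) := by
    refine Differentiable.mul (Differentiable.mul ?_ ?_) h3
    · unfold cf
      fun_prop
    · refine diff_lprod (f := fun q c => cf (q - lam) + c) fun c _ => ?_
      unfold cf
      fun_prop
  refine NUMv.entire_ext isOpen_nb ?_ h1 h2 (fun q hq => qc_fuse hq L) q
  exact ⟨lam, Or.inl (Metric.mem_ball_self rG_pos)⟩

/-! ### The relations at `y` -/

theorem lprod_smul (y : ℂ) (L : List ℂ) (f : ℂ → ℂ) :
    y ^ L.length * (L.map f).prod = (L.map fun c => y * f c).prod := by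
  induction L with
  | nil => simp
  | cons a L ih =>
    rw [List.length_cons, List.map_cons, List.map_cons, List.prod_cons, List.prod_cons, ← ih, pow_succ]
    ring

/-- **Crossing.** -/
theorem hq_cross (q y : ℂ) (L : List ℂ) :
    hq y (cF (2 * q + 3 * lam) y :: cF (2 * q - 3 * lam) y :: L) =
      (cF (2 * q + 3 * lam) y + cF (2 * q - 3 * lam) y + y * (c1 - c3)) *
        (L.map fun c => (c + cF (2 * q - lam) y) * (c + cF (2 * q + lam) y)).prod * hq y L := by
  have c1' : Continuous fun y => hq y (cF (2 * q + 3 * lam) y :: cF (2 * q - 3 * lam) y :: L) := by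
    have h := cont_hq (X := (fun y => cF (2 * q + 3 * lam) y) :: (fun y => cF (2 * q - 3 * lam) y) ::
      L.map fun c => (fun _ : ℂ => c)) (y := fun y : ℂ => y) (f := fun y g => g y) continuous_id (by
        intro g hg
        rcases List.mem_cons.1 hg with rfl | hg
        · exact cont_cF _
        rcases List.mem_cons.1 hg with rfl | hg
        · exact cont_cF _
        obtain ⟨c, _, rfl⟩ := List.mem_map.1 hg
        exact continuous_const)
    simpa only [List.map_cons, List.map_map, Function.comp_def, List.map_id'] using h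
  have c2' : Continuous fun y => (cF (2 * q + 3 * lam) y + cF (2 * q - 3 * lam) y + y * (c1 - c3)) *
      (L.map fun c => (c + cF (2 * q - lam) y) * (c + cF (2 * q + lam) y)).prod * hq y L := by
    refine ((((cont_cF _).add (cont_cF _)).add (continuous_id.mul continuous_const)).mul ?_).mul
      (cont_hq_y L)
    exact cont_lprod (f := fun y c => (c + cF (2 * q - lam) y) * (c + cF (2 * q + lam) y))
      fun c _ => (continuous_const.add (cont_cF _)).mul (continuous_const.add (cont_cF _))
  refine cont_ext c1' c2' (fun y hy => ?_) y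
  obtain ⟨s, hs⟩ := exists_s hy
  have h := qc_cross_all (q - s) (L.map fun c => y⁻¹ * c)
  have e1 : ∀ a : ℂ, y⁻¹ * cF a y = cos (a - 2 * s) := by
    intro a
    rw [← hs, cF_eq, inv_mul_cancel_left₀ (Complex.exp_ne_zero _)]
  have e2 : cp (q - s) = y⁻¹ * cF (2 * q + 3 * lam) y := by
    rw [e1]
    unfold cp
    congr 1
    ring
  have e3 : cf (q - s) = y⁻¹ * cF (2 * q - 3 * lam) y := by
    rw [e1]
    unfold cf
    congr 1
    ring
  have e4 : ca (q - s) = y⁻¹ * cF (2 * q - lam) y := by
    rw [e1]
    unfold ca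
    congr 1
    ring
  have e5 : cb (q - s) = y⁻¹ * cF (2 * q + lam) y := by
    rw [e1]
    unfold cb
    congr 1
    ring
  have e6 : ∀ c : ℂ, y * (y * ph (q - s) (y⁻¹ * c)) =
      (c + cF (2 * q - lam) y) * (c + cF (2 * q + lam) y) := by
    intro c
    unfold ph
    rw [e4, e5]
    field_simp
  rw [hq_ne hy, hq_ne hy (A := L), List.length_cons, List.length_cons, List.map_cons, List.map_cons, ← e2,
    ← e3, h, ch_succ, ch_succ, List.map_map]
  have e7 := lprod_smul y L fun c => y * ph (q - s) (y⁻¹ * c)
  have e8 := lprod_smul y L fun c => ph (q - s) (y⁻¹ * c)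
  simp only [e6] at e7
  rw [← e7, ← e8, e2, e3]
  have e9 : (List.map (ph (q - s) ∘ fun c => y⁻¹ * c) L).prod =
      (List.map (fun c => ph (q - s) (y⁻¹ * c)) L).prod := rfl
  rw [e9, show L.length + 1 + (L.length + L.length.choose 2) = L.length + (L.length +
    (L.length.choose 2 + 1)) by ring, pow_add, pow_add, pow_succ]
  field_simp

/-- **Fusion.** -/
theorem hq_fuse (q y : ℂ) (L : List ℂ) :
    hq y (cF (2 * q - 3 * lam) y :: cF (2 * q - 7 * lam) y :: L) =
      2 * s2 * (cF (2 * q - 5 * lam) y + y * c3) *
        (L.map fun c => cF (2 * q - 5 * lam) y + c).prod * hq y (cF (2 * q - 5 * lam) y :: L) := by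
  have c1' : Continuous fun y => hq y (cF (2 * q - 3 * lam) y :: cF (2 * q - 7 * lam) y :: L) := by
    have h := cont_hq (X := (fun y => cF (2 * q - 3 * lam) y) :: (fun y => cF (2 * q - 7 * lam) y) ::
      L.map fun c => (fun _ : ℂ => c)) (y := fun y : ℂ => y) (f := fun y g => g y) continuous_id (by
        intro g hg
        rcases List.mem_cons.1 hg with rfl | hg
        · exact cont_cF _
        rcases List.mem_cons.1 hg with rfl | hg
        · exact cont_cF _
        obtain ⟨c, _, rfl⟩ := List.mem_map.1 hg
        exact continuous_const)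
    simpa only [List.map_cons, List.map_map, Function.comp_def, List.map_id'] using h
  have c3' : Continuous fun y => hq y (cF (2 * q - 5 * lam) y :: L) := by
    have h := cont_hq (X := (fun y => cF (2 * q - 5 * lam) y) ::
      L.map fun c => (fun _ : ℂ => c)) (y := fun y : ℂ => y) (f := fun y g => g y) continuous_id (by
        intro g hg
        rcases List.mem_cons.1 hg with rfl | hg
        · exact cont_cF _
        obtain ⟨c, _, rfl⟩ := List.mem_map.1 hg
        exact continuous_const)
    simpa only [List.map_cons, List.map_map, Function.comp_def, List.map_id'] using h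
  have c2' : Continuous fun y => 2 * s2 * (cF (2 * q - 5 * lam) y + y * c3) *
      (L.map fun c => cF (2 * q - 5 * lam) y + c).prod * hq y (cF (2 * q - 5 * lam) y :: L) := by
    refine ((continuous_const.mul ((cont_cF _).add (continuous_id.mul continuous_const))).mul ?_).mul c3'
    exact cont_lprod (f := fun y c => cF (2 * q - 5 * lam) y + c)
      fun c _ => (cont_cF _).add continuous_const
  refine cont_ext c1' c2' (fun y hy => ?_) y
  obtain ⟨s, hs⟩ := exists_s hy
  have h := qc_fuse_all (q - s) (L.map fun c => y⁻¹ * c)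
  have e1 : ∀ a : ℂ, y⁻¹ * cF a y = cos (a - 2 * s) := by
    intro a
    rw [← hs, cF_eq, inv_mul_cancel_left₀ (Complex.exp_ne_zero _)]
  have e2 : cf (q - s - 2 * lam) = y⁻¹ * cF (2 * q - 7 * lam) y := by
    rw [e1]
    unfold cf
    congr 1
    ring
  have e3 : cf (q - s) = y⁻¹ * cF (2 * q - 3 * lam) y := by
    rw [e1]
    unfold cf
    congr 1
    ring
  have e4 : cf (q - s - lam) = y⁻¹ * cF (2 * q - 5 * lam) y := by
    rw [e1]
    unfold cf
    congr 1
    ring
  have e6 : ∀ c : ℂ, y * (cf (q - s - lam) + y⁻¹ * c) = cF (2 * q - 5 * lam) y + c := by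
    intro c
    rw [e4]
    field_simp
  rw [hq_ne hy, hq_ne hy (A := cF (2 * q - 5 * lam) y :: L)]
  simp only [List.length_cons]
  rw [List.map_cons, List.map_cons, List.map_cons, ← e2, ← e3, ← e4, h, ch_succ (L.length + 1),
    List.map_map]
  have e7 := lprod_smul y L fun c => cf (q - s - lam) + y⁻¹ * c
  simp only [e6] at e7
  rw [← e7]
  have e9 : (List.map ((fun c => cf (q - s - lam) + c) ∘ fun c => y⁻¹ * c) L).prod =
      (List.map (fun c => cf (q - s - lam) + y⁻¹ * c) L).prod := rfl
  have e10 : cF (2 * q - 5 * lam) y = y * cf (q - s - lam) := by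
    rw [e4, mul_inv_cancel_left₀ hy]
  rw [e9, e10, pow_add, pow_succ]
  ring

/-- **The bottom coefficient.** -/
theorem hq_triv (y : ℂ) (L : List ℂ) :
    hq y (y * c3 :: L) = (L.map fun c => c + y * c1).prod * hq y L := by
  have c1' : Continuous fun y => hq y (y * c3 :: L) := by
    have h := cont_hq (X := (fun y => y * c3) ::
      L.map fun c => (fun _ : ℂ => c)) (y := fun y : ℂ => y) (f := fun y g => g y) continuous_id (by
        intro g hg
        rcases List.mem_cons.1 hg with rfl | hg
        · exact continuous_id.mul continuous_const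
        obtain ⟨c, _, rfl⟩ := List.mem_map.1 hg
        exact continuous_const)
    simpa only [List.map_cons, List.map_map, Function.comp_def, List.map_id'] using h
  have c2' : Continuous fun y => (L.map fun c => c + y * c1).prod * hq y L :=
    (cont_lprod (f := fun y c => c + y * c1)
      fun c _ => continuous_const.add (continuous_id.mul continuous_const)).mul (cont_hq_y L)
  refine cont_ext c1' c2' (fun y hy => ?_) y
  have h := qc_triv (L.map fun c => y⁻¹ * c)
  rw [hq_ne hy, hq_ne hy (A := L), List.length_cons, List.map_cons, inv_mul_cancel_left₀ hy, h, ch_succ,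
    List.map_map]
  have e7 := lprod_smul y L fun c => y⁻¹ * c + c1
  have e6 : ∀ c : ℂ, y * (y⁻¹ * c + c1) = c + y * c1 := by
    intro c
    field_simp
  simp only [e6] at e7
  rw [← e7]
  have e9 : (List.map ((fun c => c + c1) ∘ fun c => y⁻¹ * c) L).prod =
      (List.map (fun c => y⁻¹ * c + c1) L).prod := rfl
  rw [e9, pow_add]
  ring

end Pool.Agent.NUBD
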